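import Mathlib

/-!
# Zero entropy reduction: definitions

Growth of finite sets of a group, sequences of tiles in finite quotients, and the finite systems.
-/

set_option autoImplicit false

namespace Pool.Agent.Lib.Pf720zr

/-- the products of at most `n` elements of `S` lie in a set with at most `C (n + 1) ^ D` elements -/
def Gr {G : Type} [Group G] (S : Set G) : Prop :=
  ∃ C D : ℕ, ∀ n : ℕ, ∃ B : Finset G, B.card ≤ C * (n + 1) ^ D ∧
    ∀ l : List G, l.length ≤ n → (∀ x ∈ l, x ∈ S) → l.prod ∈ B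

/-- almost invariant finite sets `K j` with `|K⁻¹ K| ≤ C |K|`, which are injective modulo normal
subgroups `H j` of finite index -/
structure TileSeq {G : Type} [Group G] (K : ℕ → Finset G) (H : ℕ → Subgroup G) (C : ℕ) :
    Prop where
  ne : ∀ j, (K j).Nonempty
  normal : ∀ j, (H j).Normal
  findex : ∀ j, (H j).FiniteIndex
  inj : ∀ j, ∀ a ∈ K j, ∀ b ∈ K j, a⁻¹ * b ∈ H j → a = b
  doub : ∀ j, ∃ E : Finset G, E.card ≤ C * (K j).card ∧ ∀ a ∈ K j, ∀ b ∈ K j, a⁻¹ * b ∈ E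
  fol : ∀ (S : Finset G) (ε : ℝ), 0 < ε → ∃ j, ∃ D : Finset G, D ⊆ K j ∧
    (∀ k ∈ K j, k ∉ D → ∀ s ∈ S, s * k ∈ K j) ∧ (D.card : ℝ) ≤ ε * (K j).card

end Pool.Agent.Lib.Pf720zr
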