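import Pool.Agent.Lib.Pf720zr.Defs

/-!
# Almost invariant finite sets with `|K⁻¹ K| ≤ C |K|`

Let `S₀` be a finite set with `1 ∈ S₀`, `S₀⁻¹ = S₀`, generating `G` (`Group.FG`: a finite generating set,
its inverses and `1`). `β n := {l.prod : l.length ≤ n, l ⊆ S₀}` is finite (contained in the finset `B` of
`Gr`), increasing, `β m * β n ⊆ β (m + n)`, `(β n)⁻¹ ⊆ β n` (`List.prod_inv_reverse`), every element of
`G` lies in some `β n` (`Subgroup.closure_induction` or `Subgroup.exists_list_of_mem_closure`), so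
`S ⊆ β L` for some `L ≥ 1`. Let `b n = card (β n) ≥ 1`, `b n ≤ C₀ * (n + 1) ^ D`.
(1) There are arbitrarily large `r` with `b (4 * r) ≤ 4 ^ (D + 1) * b r`: otherwise
`b (4 * r) > 4 ^ (D + 1) * b r` for all `r ≥ r₀ ≥ 1`, so `b (4 ^ k * r₀) ≥ 4 ^ ((D + 1) * k)` for all `k`, while
`b (4 ^ k * r₀) ≤ C₀ * (4 ^ k * r₀ + 1) ^ D ≤ C₀ * (2 * r₀) ^ D * 4 ^ (k * D)`; contradiction for
`4 ^ k > C₀ * (2 * r₀) ^ D`.
(2) With `A = 4 ^ (D + 1)` choose `r ≥ L` with (1) and `(1 + ε) ^ (r / L) > A` (natural division). Then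
there is `i < r / L` with `b (r + (i + 1) * L) ≤ (1 + ε) * b (r + i * L)`: otherwise
`b (2 * r) ≥ b (r + (r / L) * L) ≥ (1 + ε) ^ (r / L) * b r > A * b r ≥ b (4 * r) ≥ b (2 * r)`.
(3) With `n = r + i * L`, `n + L ≤ 2 * r`, put `K = β (n + L)`, `D = K \ β n`:
`card D = b (n + L) - b n ≤ ε * b n ≤ ε * card K`, `s * k ∈ K` for `s ∈ S ⊆ β L`, `k ∈ β n`, and
`E = β (2 * (n + L))`, `card E ≤ b (4 * r) ≤ A * b r ≤ A * card K`. So `C = 4 ^ (D + 1)` works for all
`S` and `ε`.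
-/

set_option autoImplicit false

namespace Pool.Agent.Lib.Pf720zr

theorem exists_tile {G : Type} [Group G] (hG : Group.FG G) (hgr : ∀ S : Finset G, Gr (S : Set G)) :
    ∃ C : ℕ, ∀ (S : Finset G) (ε : ℝ), 0 < ε → ∃ K : Finset G, K.Nonempty ∧
      (∃ E : Finset G, E.card ≤ C * K.card ∧ ∀ a ∈ K, ∀ b ∈ K, a⁻¹ * b ∈ E) ∧
      ∃ D : Finset G, D ⊆ K ∧ (∀ k ∈ K, k ∉ D → ∀ s ∈ S, s * k ∈ K) ∧
        (D.card : ℝ) ≤ ε * K.card := by
  classical
  obtain ⟨S₁, hS₁⟩ := hG.out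
  set S₀ : Finset G := insert 1 (S₁ ∪ S₁.image fun x => x⁻¹) with hS₀
  have hS₀inv : ∀ x ∈ S₀, x⁻¹ ∈ S₀ := by
    intro x hx
    rcases Finset.mem_insert.1 hx with rfl | hx
    · rw [inv_one]
      exact hx
    · refine Finset.mem_insert_of_mem ?_
      rcases Finset.mem_union.1 hx with h | h
      · exact Finset.mem_union_right _ (Finset.mem_image_of_mem _ h)
      · obtain ⟨y, hy, rfl⟩ := Finset.mem_image.1 h
        rw [inv_inv]
        exact Finset.mem_union_left _ hy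
  obtain ⟨C₀, D, hCD⟩ := hgr S₀
  have hfin : ∀ n : ℕ, {g : G | ∃ l : List G, l.length ≤ n ∧ (∀ x ∈ l, x ∈ S₀) ∧
      l.prod = g}.Finite := by
    intro n
    obtain ⟨B, -, hB⟩ := hCD n
    refine B.finite_toSet.subset ?_
    rintro _ ⟨l, hl, hm, rfl⟩
    exact hB l hl fun x hx => hm x hx
  set F : ℕ → Finset G := fun n => (hfin n).toFinset with hF
  have hFm : ∀ n g, g ∈ F n ↔ ∃ l : List G, l.length ≤ n ∧ (∀ x ∈ l, x ∈ S₀) ∧ l.prod = g := by
    intro n g
    rw [hF, Set.Finite.mem_toFinset]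
    exact Iff.rfl
  have hmono : ∀ m n, m ≤ n → F m ⊆ F n := by
    intro m n hmn g hg
    obtain ⟨l, hl, hm, hp⟩ := (hFm m g).1 hg
    exact (hFm n g).2 ⟨l, hl.trans hmn, hm, hp⟩
  have hmul : ∀ m n g h, g ∈ F m → h ∈ F n → g * h ∈ F (m + n) := by
    intro m n g h hg hh
    obtain ⟨l, hl, hm, hp⟩ := (hFm m g).1 hg
    obtain ⟨l', hl', hm', hp'⟩ := (hFm n h).1 hh
    refine (hFm _ _).2 ⟨l ++ l', ?_, ?_, ?_⟩
    · rw [List.length_append]
      omega
    · intro x hx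
      rcases List.mem_append.1 hx with h1 | h1
      · exact hm x h1
      · exact hm' x h1
    · rw [List.prod_append, hp, hp']
  have hinv : ∀ n g, g ∈ F n → g⁻¹ ∈ F n := by
    intro n g hg
    obtain ⟨l, hl, hm, hp⟩ := (hFm n g).1 hg
    refine (hFm _ _).2 ⟨(l.map fun x => x⁻¹).reverse, ?_, ?_, ?_⟩
    · rwa [List.length_reverse, List.length_map]
    · intro x hx
      rw [List.mem_reverse] at hx
      obtain ⟨y, hy, rfl⟩ := List.mem_map.1 hx
      exact hS₀inv y (hm y hy)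
    · rw [← List.prod_inv_reverse, hp]
  have hone : ∀ n, (1 : G) ∈ F n := fun n => (hFm n 1).2 ⟨[], by simp, by simp, by simp⟩
  have hcov : ∀ g : G, ∃ n, g ∈ F n := by
    intro g
    have hg : g ∈ Subgroup.closure (S₁ : Set G) := by
      rw [hS₁]
      exact Subgroup.mem_top g
    induction hg using Subgroup.closure_induction with
    | mem x hx =>
      refine ⟨1, (hFm 1 x).2 ⟨[x], by simp, ?_, by simp⟩⟩
      intro y hy
      rw [List.mem_singleton] at hy
      rw [hy]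
      exact Finset.mem_insert_of_mem (Finset.mem_union_left _ hx)
    | one => exact ⟨0, hone 0⟩
    | mul x y _ _ hx hy =>
      obtain ⟨m, hm⟩ := hx
      obtain ⟨n, hn⟩ := hy
      exact ⟨m + n, hmul m n x y hm hn⟩
    | inv x _ hx =>
      obtain ⟨n, hn⟩ := hx
      exact ⟨n, hinv n x hn⟩
  set b : ℕ → ℕ := fun n => (F n).card with hb
  have hb1 : ∀ n, 1 ≤ b n := fun n => Finset.card_pos.2 ⟨1, hone n⟩
  have hbm : ∀ m n, m ≤ n → b m ≤ b n := fun m n hmn => Finset.card_le_card (hmono m n hmn)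
  have hbg : ∀ n, b n ≤ C₀ * (n + 1) ^ D := by
    intro n
    obtain ⟨B, hBc, hB⟩ := hCD n
    refine le_trans (Finset.card_le_card fun g hg => ?_) hBc
    obtain ⟨l, hl, hm, rfl⟩ := (hFm n g).1 hg
    exact hB l hl fun x hx => hm x hx
  -- doubling scales
  have hdoub : ∀ r₀, 1 ≤ r₀ → ∃ r, r₀ ≤ r ∧ b (4 * r) ≤ 4 ^ (D + 1) * b r := by
    intro r₀ hr₀
    by_contra hcon
    push Not at hcon
    have h1 : ∀ k : ℕ, 4 ^ ((D + 1) * k) ≤ b (4 ^ k * r₀) := by
      intro k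
      induction k with
      | zero =>
        rw [mul_zero, pow_zero]
        exact hb1 _
      | succ k ih =>
        have h2 := hcon (4 ^ k * r₀) (Nat.le_mul_of_pos_left _ (by positivity))
        have e : 4 * (4 ^ k * r₀) = 4 ^ (k + 1) * r₀ := by ring
        rw [e] at h2
        calc 4 ^ ((D + 1) * (k + 1)) = 4 ^ (D + 1) * 4 ^ ((D + 1) * k) := by ring
          _ ≤ 4 ^ (D + 1) * b (4 ^ k * r₀) := Nat.mul_le_mul_left _ ih
          _ ≤ b (4 ^ (k + 1) * r₀) := h2.le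
    have h2 : ∀ k : ℕ, 4 ^ k ≤ C₀ * (2 * r₀) ^ D := by
      intro k
      have h3 : 4 ^ k * r₀ + 1 ≤ 4 ^ k * (2 * r₀) := by
        have : 1 ≤ 4 ^ k * r₀ := Nat.mul_pos (by positivity) hr₀
        nlinarith
      have h4 : 4 ^ k * (4 ^ k) ^ D ≤ C₀ * (2 * r₀) ^ D * (4 ^ k) ^ D := by
        calc 4 ^ k * (4 ^ k) ^ D = 4 ^ ((D + 1) * k) := by
              rw [← pow_succ', ← pow_mul, mul_comm k]
          _ ≤ b (4 ^ k * r₀) := h1 k
          _ ≤ C₀ * (4 ^ k * r₀ + 1) ^ D := hbg _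
          _ ≤ C₀ * (4 ^ k * (2 * r₀)) ^ D :=
              Nat.mul_le_mul_left _ (Nat.pow_le_pow_left h3 D)
          _ = C₀ * (2 * r₀) ^ D * (4 ^ k) ^ D := by rw [mul_pow]; ring
      exact Nat.le_of_mul_le_mul_right h4 (by positivity)
    have h3 := h2 (C₀ * (2 * r₀) ^ D)
    have h4 : C₀ * (2 * r₀) ^ D < 4 ^ (C₀ * (2 * r₀) ^ D) := Nat.lt_pow_self (by norm_num)
    omega
  refine ⟨4 ^ (D + 1), fun S ε hε => ?_⟩
  choose ν hν using hcov
  set L : ℕ := ∑ s ∈ S, ν s + 1 with hL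
  have hSL : ∀ s ∈ S, s ∈ F L := by
    intro s hs
    refine hmono (ν s) L ?_ (hν s)
    have := Finset.single_le_sum (f := ν) (fun _ _ => Nat.zero_le _) hs
    omega
  obtain ⟨q, hq⟩ := pow_unbounded_of_one_lt ((4 ^ (D + 1) : ℕ) : ℝ)
    (show (1 : ℝ) < 1 + ε by linarith)
  obtain ⟨r, hr, hrd⟩ := hdoub (L * (q + 1)) (by
    have : 0 < L * (q + 1) := Nat.mul_pos (by omega) (by omega)
    omega)
  have hqL : q * L ≤ r := by
    have : L * (q + 1) = q * L + L := by ring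
    omega
  obtain ⟨i, hi, hstep⟩ : ∃ i < q, (b (r + (i + 1) * L) : ℝ) ≤ (1 + ε) * b (r + i * L) := by
    by_contra hcon
    push Not at hcon
    have h1 : ∀ i ≤ q, (1 + ε) ^ i * b r ≤ (b (r + i * L) : ℝ) := by
      intro i
      induction i with
      | zero =>
        intro _
        rw [pow_zero, one_mul, zero_mul, add_zero]
      | succ i ih =>
        intro hi
        have h2 := ih (by omega)
        have h3 := hcon i (by omega)
        calc (1 + ε) ^ (i + 1) * b r = (1 + ε) * ((1 + ε) ^ i * b r) := by ring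
          _ ≤ (1 + ε) * b (r + i * L) := mul_le_mul_of_nonneg_left h2 (by linarith)
          _ ≤ b (r + (i + 1) * L) := h3.le
    have h2 := h1 q le_rfl
    have h3 : (b (r + q * L) : ℝ) ≤ (4 ^ (D + 1) : ℕ) * b r := by
      have h4 : b (r + q * L) ≤ 4 ^ (D + 1) * b r := (hbm _ _ (by omega)).trans hrd
      exact_mod_cast h4
    have h5 : (0 : ℝ) < b r := by exact_mod_cast hb1 r
    have h6 := (h2.trans h3)
    have h7 := le_of_mul_le_mul_right h6 h5
    linarith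
  set n : ℕ := r + i * L with hn
  have hnL : n + L ≤ 2 * r := by
    have : (i + 1) * L ≤ q * L := Nat.mul_le_mul_right _ hi
    have h2 : (i + 1) * L = i * L + L := by ring
    omega
  have hnL' : r + (i + 1) * L = n + L := by
    rw [hn]
    ring
  rw [hnL'] at hstep
  refine ⟨F (n + L), ⟨1, hone _⟩, ⟨F (n + L + (n + L)), ?_, ?_⟩, F (n + L) \ F n,
    Finset.sdiff_subset, ?_, ?_⟩
  · have h1 : b (n + L + (n + L)) ≤ b (4 * r) := hbm _ _ (by omega)
    have h2 : b r ≤ b (n + L) := hbm _ _ (by omega)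
    exact h1.trans (hrd.trans (Nat.mul_le_mul_left _ h2))
  · intro a ha c hc
    exact hmul _ _ _ _ (hinv _ _ ha) hc
  · intro k hk hkD s hs
    have hkn : k ∈ F n := by
      by_contra hcon
      exact hkD (Finset.mem_sdiff.2 ⟨hk, hcon⟩)
    rw [add_comm n L]
    exact hmul L n s k (hSL s hs) hkn
  · have h1 : (F (n + L) \ F n).card + (F n).card = (F (n + L)).card :=
      Finset.card_sdiff_add_card_eq_card (hmono _ _ (by omega))
    have h2 : ((F (n + L) \ F n).card : ℝ) + b n = b (n + L) := by exact_mod_cast h1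
    have h3 : (b n : ℝ) ≤ b (n + L) := by exact_mod_cast hbm n (n + L) (by omega)
    have h4 : ((F (n + L)).card : ℝ) = b (n + L) := rfl
    rw [h4]
    nlinarith

end Pool.Agent.Lib.Pf720zr
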