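import Mathlib
import Pool.Agent.Lib.Pf720nn.GNoeth

/-!
# Finitely generated nilpotent groups are residually finite

`finite_of_center`: by `Group.nilpotent_center_quotient_ind` with
`P G = (Group.FG G → Finite (Subgroup.center G) → Finite G)`. Step: let `Z = center G` be finite and `S` a
finite generating set of `G`. Let `Z₂ = (center (G ⧸ Z)).comap (mk' Z)`. For `z ∈ Z₂` and `s ∈ S`,
`⁅z, s⁆ ∈ Z`; the map `Z₂ → (S → Z)`, `z ↦ (⁅z, s⁆)_s` is constant only on cosets of `Z`: if
`⁅z, s⁆ = ⁅z', s⁆` for all `s ∈ S` then `z⁻¹ * z'` commutes with every `s ∈ S` (as `⁅z, s⁆` is central), hence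
is central. So `Z₂ ⧸ Z`, that is `center (G ⧸ Z)`, is finite; by induction `G ⧸ Z` is finite, so `G` is finite
(`Subgroup.card_eq_card_quotient_mul_card_subgroup`, or `Finite.of_...`).

`exists_normal`: Zorn (`zorn_le_nonempty₀` or `zorn_subset`) gives a normal subgroup `N` with `g ∉ N`,
maximal with this property (the union of a nonempty chain of such subgroups is one, `sSup`,
`Subgroup.mem_sSup_of_directedOn`). Let `Q = G ⧸ N`, finitely generated and nilpotent. Every nontrivial
normal subgroup of `Q` contains the image `q` of `g` (its preimage is strictly larger than `N`). Hence the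
center of `Q` is a torsion group: if `z ∈ center Q` has infinite order, all `zpowers (z ^ n)`, `n ≥ 1`, are
normal and nontrivial, so `q = z ^ k` for some `k`, `k ≠ 0` as `q ≠ 1`, and `q ∈ zpowers (z ^ (2 * |k|))`
gives a contradiction. `center Q` is finitely generated (`Pool.Agent.Lib.Pf720nn.subgroup_fg`), so finite
(`CommGroup.finite_of_fg_isMulTorsion`, with the instance `CommGroup (Subgroup.center Q)`), so `Q` is finite by
`finite_of_center`.
-/

set_option autoImplicit false

open scoped commutatorElement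

namespace Pool.Agent.Lib.Pf720zr

theorem finite_of_center (G : Type) [Group G] [Group.IsNilpotent G] (hG : Group.FG G)
    (hZ : Finite (Subgroup.center G)) : Finite G := by
  classical
  revert hG hZ
  refine Group.nilpotent_center_quotient_ind (P := fun G _ _ =>
    Group.FG G → Finite (Subgroup.center G) → Finite G) G ?_ ?_
  · intro G _ _ _ _
    infer_instance
  · intro G _ _ ih hG hZ
    have hG' : Group.FG G := hG
    obtain ⟨S, hS⟩ := hG.out
    have hmem : ∀ (c : Subgroup.center (G ⧸ Subgroup.center G)) (s : G),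
        ⁅Quotient.out c.1, s⁆ ∈ Subgroup.center G := by
      intro c s
      rw [← QuotientGroup.eq_one_iff]
      have h1 : ((⁅Quotient.out c.1, s⁆ : G) : G ⧸ Subgroup.center G) =
          ⁅((Quotient.out c.1 : G) : G ⧸ Subgroup.center G), (s : G ⧸ Subgroup.center G)⁆ :=
        map_commutatorElement (QuotientGroup.mk' (Subgroup.center G)) _ _
      rw [h1, QuotientGroup.out_eq', commutatorElement_eq_one_iff_mul_comm]
      exact (Subgroup.mem_center_iff.1 c.2 _).symm
    have h1 : Finite (Subgroup.center (G ⧸ Subgroup.center G)) := by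
      refine Finite.of_injective (β := S → Subgroup.center G)
        (fun c s => ⟨⁅Quotient.out c.1, s.1⁆, hmem c s⟩) ?_
      intro c c' hcc
      have h2 : ∀ s ∈ S, ⁅Quotient.out c.1, s⁆ = ⁅Quotient.out c'.1, s⁆ := fun s hs =>
        congrArg Subtype.val (congrFun hcc ⟨s, hs⟩)
      set z := Quotient.out c.1 with hz
      set z' := Quotient.out c'.1 with hz'
      have h3 : z⁻¹ * z' ∈ Subgroup.center G := by
        have h4 : Subgroup.closure (S : Set G) ≤ Subgroup.centralizer {z⁻¹ * z'} := by
          rw [Subgroup.closure_le]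
          intro s hs
          rw [SetLike.mem_coe, Subgroup.mem_centralizer_iff]
          intro y hy
          rw [Set.mem_singleton_iff] at hy
          subst hy
          have h5 := h2 s hs
          rw [commutatorElement_def, commutatorElement_def] at h5
          have h6 : z * s * z⁻¹ = z' * s * z'⁻¹ := mul_right_cancel h5
          calc z⁻¹ * z' * s = z⁻¹ * (z' * s * z'⁻¹) * z' := by group
            _ = z⁻¹ * (z * s * z⁻¹) * z' := by rw [h6]
            _ = s * (z⁻¹ * z') := by group
        rw [hS] at h4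
        rw [Subgroup.mem_center_iff]
        intro g
        have h7 := h4 (Subgroup.mem_top g)
        rw [Subgroup.mem_centralizer_iff] at h7
        exact (h7 _ (Set.mem_singleton _)).symm
      have h8 : c.1 = c'.1 := by
        have h9 : ((z : G) : G ⧸ Subgroup.center G) = (z' : G) := QuotientGroup.eq.2 h3
        rw [hz, hz', QuotientGroup.out_eq', QuotientGroup.out_eq'] at h9
        exact h9
      exact Subtype.ext h8
    have h2 : Finite (G ⧸ Subgroup.center G) := ih inferInstance h1
    exact Finite.of_equiv _ (Subgroup.groupEquivQuotientProdSubgroup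
      (s := Subgroup.center G)).symm

theorem exists_normal {G : Type} [Group G] [Group.IsNilpotent G] (hG : Group.FG G) {g : G}
    (hg : g ≠ 1) : ∃ N : Subgroup G, N.Normal ∧ N.FiniteIndex ∧ g ∉ N := by
  have hG' : Group.FG G := hG
  obtain ⟨N, -, hN⟩ := zorn_le_nonempty₀ {N : Subgroup G | N.Normal ∧ g ∉ N} (by
    intro c hc hchain y hy
    have hmem : ∀ x, x ∈ sSup c ↔ ∃ s ∈ c, x ∈ s := fun x =>
      Subgroup.mem_sSup_of_directedOn ⟨y, hy⟩ hchain.directedOn
    refine ⟨sSup c, ⟨⟨fun n hn a => ?_⟩, fun h => ?_⟩, fun z hz => le_sSup hz⟩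
    · obtain ⟨s, hs, hns⟩ := (hmem n).1 hn
      exact (hmem _).2 ⟨s, hs, (hc hs).1.conj_mem n hns a⟩
    · obtain ⟨s, hs, hgs⟩ := (hmem g).1 h
      exact (hc hs).2 hgs) ⊥ ⟨inferInstance, by rwa [Subgroup.mem_bot]⟩
  obtain ⟨⟨hNn, hgN⟩, hmax⟩ := hN
  refine ⟨N, hNn, ?_, hgN⟩
  have hq : ∀ M : Subgroup (G ⧸ N), M.Normal → M ≠ ⊥ → (g : G ⧸ N) ∈ M := by
    intro M hM hMb
    by_contra hcon
    have h1 : N ≤ M.comap (QuotientGroup.mk' N) := by
      intro n hn
      rw [Subgroup.mem_comap]
      have h2 : QuotientGroup.mk' N n = 1 := (QuotientGroup.eq_one_iff n).2 hn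
      rw [h2]
      exact M.one_mem
    have h3 := hmax (y := M.comap (QuotientGroup.mk' N)) ⟨hM.comap _, hcon⟩ h1
    refine hMb (le_antisymm (fun x hx => ?_) bot_le)
    obtain ⟨a, rfl⟩ := QuotientGroup.mk'_surjective N x
    have h4 : a ∈ N := h3 hx
    rw [Subgroup.mem_bot]
    exact (QuotientGroup.eq_one_iff a).2 h4
  have hcent : ∀ z ∈ Subgroup.center (G ⧸ N), ∃ n : ℕ, 0 < n ∧ z ^ n = 1 := by
    intro z hz
    by_contra hcon
    push Not at hcon
    have h1 : ∀ n : ℕ, 0 < n → (g : G ⧸ N) ∈ Subgroup.zpowers (z ^ n) := by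
      intro n hn
      refine hq _ ⟨fun x hx a => ?_⟩ fun h => hcon n hn (Subgroup.zpowers_eq_bot.1 h)
      have h2 : x ∈ Subgroup.center (G ⧸ N) := by
        obtain ⟨k, rfl⟩ := Subgroup.mem_zpowers_iff.1 hx
        exact Subgroup.zpow_mem _ (Subgroup.pow_mem _ hz n) k
      have h3 : a * x * a⁻¹ = x := by
        rw [Subgroup.mem_center_iff.1 h2 a, mul_inv_cancel_right]
      rwa [h3]
    have h0 : Function.Injective fun k : ℤ => z ^ k := by
      intro a b hab
      by_contra hne
      have h2 : z ^ (a - b) = 1 := by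
        rw [zpow_sub]
        simp only at hab
        rw [hab, mul_inv_cancel]
      have h3 : 0 < (a - b).natAbs := Int.natAbs_pos.2 (sub_ne_zero.2 hne)
      refine hcon _ h3 ?_
      rcases Int.natAbs_eq (a - b) with h4 | h4
      · rw [h4, zpow_natCast] at h2
        exact h2
      · rw [h4, zpow_neg, zpow_natCast, inv_eq_one] at h2
        exact h2
    obtain ⟨k, hk⟩ := Subgroup.mem_zpowers_iff.1 (h1 1 one_pos)
    rw [pow_one] at hk
    have hk0 : k ≠ 0 := by
      rintro rfl
      rw [zpow_zero] at hk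
      exact hgN ((QuotientGroup.eq_one_iff g).1 hk.symm)
    obtain ⟨k', hk'⟩ := Subgroup.mem_zpowers_iff.1 (h1 (2 * k.natAbs) (by
      have := Int.natAbs_pos.2 hk0
      omega))
    rw [← hk, ← zpow_natCast, ← zpow_mul] at hk'
    have h5 := h0 hk'
    push_cast at h5
    have h6 : k.natAbs ∣ k.natAbs := dvd_rfl
    have h7 : (2 * |k|) ∣ k := ⟨k', h5.symm⟩
    have h8 : (2 * |k|) ∣ |k| := (dvd_abs _ _).2 h7
    have h9 : 0 < |k| := abs_pos.2 hk0
    have h10 := Int.le_of_dvd h9 h8
    omega
  have hfgQ : Group.FG (G ⧸ N) := inferInstance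
  have hfgZ : Group.FG (Subgroup.center (G ⧸ N)) :=
    (Group.fg_iff_subgroup_fg _).2 (Pool.Agent.Lib.Pf720nn.subgroup_fg _ hfgQ _)
  have hZfin : Finite (Subgroup.center (G ⧸ N)) := by
    let _ : CommGroup (Subgroup.center (G ⧸ N)) :=
      { (inferInstance : Group (Subgroup.center (G ⧸ N))) with
        mul_comm := fun a b => Subtype.ext ((Subgroup.mem_center_iff.1 b.2 a.1)) }
    refine CommGroup.finite_of_fg_isMulTorsion _ ?_
    intro z
    obtain ⟨n, hn, hzn⟩ := hcent z.1 z.2
    exact isOfFinOrder_iff_pow_eq_one.2 ⟨n, hn, Subtype.ext hzn⟩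
  have hfin : Finite (G ⧸ N) := finite_of_center _ hfgQ hZfin
  exact Subgroup.finiteIndex_of_finite_quotient

end Pool.Agent.Lib.Pf720zr
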