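import Pool.Agent.Lib.Pf720zr.Growth
import Pool.Agent.Lib.Pf720zr.Radii
import Pool.Agent.Lib.Pf720zr.ResFin

/-!
# Existence of the sequence of tiles

Enumerate `G` (`Countable G`, `exists_surjective_nat`), `S j` = the first `j + 1` elements, `ε j = 1 / (j + 1)`;
take `K j` from `exists_tile` (`Growth` for the hypothesis), and for the finite set
`E j = {a⁻¹ * b : a, b ∈ K j} \ {1}` take `H j = ⨅ e ∈ E j, N e` with `N e` from `exists_normal` (normal,
of finite index: `Subgroup.finiteIndex_iInf` or induction on the finset). For given `S, ε` choose `j`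
with `S ⊆ S j` and `1 / (j + 1) ≤ ε`.
-/

set_option autoImplicit false

namespace Pool.Agent.Lib.Pf720zr

theorem exists_tileSeq (G : Type) [Group G] [Group.IsNilpotent G] [Countable G]
    (hG : Group.FG G) :
    ∃ (K : ℕ → Finset G) (H : ℕ → Subgroup G) (C : ℕ), TileSeq K H C := by
  classical
  obtain ⟨C, hC⟩ := exists_tile hG fun S => growth S
  obtain ⟨e, he⟩ := exists_surjective_nat G
  choose K hK hKE hKD using fun j : ℕ => hC ((Finset.range (j + 1)).image e) (1 / ((j : ℝ) + 1))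
    (by positivity)
  choose E hEc hE using hKE
  -- the normal subgroups
  choose! N hNn hNf hN using fun (g : G) (hg : g ≠ 1) => exists_normal hG hg
  set H : ℕ → Subgroup G := fun j => ⨅ g : {g : G // g ∈ (E j).erase 1}, N g.1 with hH
  have hne : ∀ j (g : {g : G // g ∈ (E j).erase 1}), g.1 ≠ 1 := fun j g =>
    Finset.ne_of_mem_erase g.2
  refine ⟨K, H, C, ⟨hK, fun j => ?_, fun j => ?_, fun j a ha b hb hab => ?_, fun j => ?_, ?_⟩⟩
  · exact Subgroup.normal_iInf_normal fun g => hNn g.1 (hne j g)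
  · exact Subgroup.finiteIndex_iInf fun g => hNf g.1 (hne j g)
  · by_contra hne'
    have h1 : a⁻¹ * b ≠ 1 := fun h => hne' (inv_mul_eq_one.1 h)
    have h2 : a⁻¹ * b ∈ (E j).erase 1 := Finset.mem_erase.2 ⟨h1, hE j a ha b hb⟩
    have h3 : a⁻¹ * b ∈ N (a⁻¹ * b) := by
      have h4 := (Subgroup.mem_iInf.1 hab) ⟨a⁻¹ * b, h2⟩
      exact h4
    exact hN _ h1 h3
  · exact ⟨E j, hEc j, hE j⟩
  · intro S ε hε
    choose ν hν using he
    obtain ⟨j₁, hj₁⟩ := exists_nat_one_div_lt hε
    set j : ℕ := j₁ + ∑ s ∈ S, ν s with hj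
    obtain ⟨D, hDK, hD, hDc⟩ := hKD j
    refine ⟨j, D, hDK, fun k hk hkD s hs => hD k hk hkD s ?_, hDc.trans ?_⟩
    · refine Finset.mem_image.2 ⟨ν s, Finset.mem_range.2 ?_, hν s⟩
      have := Finset.single_le_sum (f := ν) (fun _ _ => Nat.zero_le _) hs
      omega
    · refine mul_le_mul_of_nonneg_right ?_ (Nat.cast_nonneg _)
      refine le_trans ?_ hj₁.le
      refine one_div_le_one_div_of_le (by positivity) ?_
      rw [hj]
      push_cast
      have : (0 : ℝ) ≤ ∑ s ∈ S, (ν s : ℝ) := Finset.sum_nonneg fun _ _ => Nat.cast_nonneg _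
      linarith

end Pool.Agent.Lib.Pf720zr
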