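import Pool.Agent.Lib.Pf720nn.EFin
import Pool.Agent.Lib.Pf720nn.EFolN

/-!
# The sets of zero entropy form a σ-algebra (nilpotent groups)
-/

set_option autoImplicit false
set_option linter.unusedSectionVars false

open MeasureTheory Filter Topology
open scoped ENNReal

namespace Pool.Agent.Lib.Pf720zr

open Pool.Agent.Lib.Pf720nn
open Pool.Agent.Lib.Pf720np (ZeroEnt joinEntropy JS sg obs JS_meas obs_meas joinEntropy_eq)
open Pool.Agent.Lib.Pf720pi (cH cH_eq_zero tendsto_cH comap_top_le
  measurableSet_preimage_of_comap)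

lemma he_of_zeroEnt {G X : Type} [Group G] [DecidableEq G] {mX : MeasurableSpace X}
    (μ : Measure X) [IsProbabilityMeasure μ] {W : G → X → X} (hW : ∀ a, Measurable (W a))
    {A : Set X} (hA : MeasurableSet A) (h : ZeroEnt μ W A) : he μ W ⊤ ⊥ (ind A) = 0 := by
  refine le_antisymm (le_of_forall_pos_le_add fun ε hε => ?_)
    (he_nonneg μ hW bot_le (ind_comap_le hA))
  rw [zero_add]
  obtain ⟨F, hF, hle⟩ := h ε hε
  rw [joinEntropy_eq μ F (ind A) (fun x => by simp [ind]) (obs_meas hW (ind_comap_le hA))] at hle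
  have h1 := he_le μ hW (Y := ⊥) bot_le (ind_comap_le hA) (K := ⊤) F
    (fun g _ => Subgroup.mem_top g)
  have hFpos : (0 : ℝ) < F.card := by exact_mod_cast hF.card_pos
  exact le_of_mul_le_mul_right (h1.trans hle) hFpos

theorem he_seq {G X : Type} [Group G] [Countable G] [DecidableEq G] [Group.IsNilpotent G]
    {mX : MeasurableSpace X} (μ : Measure X) [IsProbabilityMeasure μ] {W : G → X → X}
    (hW1 : ∀ x, W 1 x = x) (hWmul : ∀ a b x, W (a * b) x = W a (W b x))
    (hWmp : ∀ a, MeasurePreserving (W a) μ μ) (𝒜 : ℕ → Set X) (h𝒜 : ∀ i, MeasurableSet (𝒜 i))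
    (h0 : ∀ i, he μ W ⊤ ⊥ (ind (𝒜 i)) = 0) {A : Set X}
    (hA : MeasurableSet[MeasurableSpace.generateFrom (Set.range 𝒜)] A) :
    he μ W ⊤ ⊥ (ind A) = 0 := by
  classical
  have hW : ∀ a, Measurable (W a) := fun a => (hWmp a).measurable
  have hG : FolS (⊤ : Subgroup G) := folS_of_nilpotent _
  have hgen : MeasurableSpace.generateFrom (Set.range 𝒜) ≤ mX := by
    refine MeasurableSpace.generateFrom_le ?_
    rintro _ ⟨i, rfl⟩
    exact h𝒜 i
  have hAm : MeasurableSet A := hgen _ hA
  have hAc : MeasurableSpace.comap (ind A) ⊤ ≤ mX := ind_comap_le hAm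
  have hAX' : ∀ i, MeasurableSpace.comap (ind (𝒜 i)) ⊤ ≤ mX := fun i => ind_comap_le (h𝒜 i)
  set R : (n : ℕ) → X → Fin n → Bool := fun n x i => ind (𝒜 i) x with hRdef
  set Yn : ℕ → MeasurableSpace X := fun n => MeasurableSpace.comap (R n) ⊤ with hYn
  have hYnX : ∀ n, Yn n ≤ mX := by
    intro n
    refine comap_top_le _ fun f => ?_
    have : R n ⁻¹' {f} = ⋂ i : Fin n, ind (𝒜 i) ⁻¹' {f i} := by
      ext x
      simp only [Set.mem_preimage, Set.mem_singleton_iff, Set.mem_iInter]
      exact funext_iff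
    rw [this]
    exact MeasurableSet.iInter fun i => measurableSet_preimage_of_comap _ (hAX' i) _
  have hmono : Monotone Yn := by
    intro a b hab
    rintro s ⟨t, -, rfl⟩
    refine ⟨{f | (fun i : Fin a => f (Fin.castLE hab i)) ∈ t}, trivial, ?_⟩
    rfl
  have hsup : MeasurableSpace.generateFrom (Set.range 𝒜) ≤ ⨆ n, Yn n := by
    refine MeasurableSpace.generateFrom_le ?_
    rintro _ ⟨i, rfl⟩
    refine le_iSup Yn (i + 1) _ ?_
    refine ⟨{f | f (Fin.last i) = true}, trivial, ?_⟩
    ext x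
    simp [R, ind]
  have hstage : ∀ n, he μ W ⊤ ⊥ (ind A) ≤ cH μ (Yn n) (JS (obs W (ind A)) {1}) := by
    intro n
    have h1 := he_joint_zero μ hWmul hWmp hG (Y := ⊥) bot_le
      (fun _ _ => MeasurableSpace.comap_bot)
      (Z := fun (i : Fin n) => ind (𝒜 i)) (fun i => hAX' i) (fun i => h0 i)
    have h2 := he_side μ hWmul hWmp hG (Y := ⊥) bot_le (fun _ _ => MeasurableSpace.comap_bot)
      hAc (hYnX n) h1
    refine h2.trans ?_
    have h3 : Yn n ≤ ⊥ ⊔ gen W ((⊤ : Subgroup G) : Set G) (Yn n) := by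
      refine le_trans ?_ le_sup_right
      have h4 := le_gen W (Yn n) (S := ((⊤ : Subgroup G) : Set G)) (u := 1)
        (Subgroup.mem_top _)
      have h5 : W 1 = id := funext hW1
      rw [h5, MeasurableSpace.comap_id] at h4
      exact h4
    refine (he_anti μ hW h3 (sup_le bot_le (gen_le W hW _ (hYnX n))) hAc).trans ?_
    have h6 := he_le μ hW (hYnX n) hAc (K := ⊤) {1} (fun g _ => Subgroup.mem_top g)
    rwa [Finset.card_singleton, Nat.cast_one, mul_one] at h6
  have hlim := tendsto_cH μ hmono hYnX (JS (obs W (ind A)) {1})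
    (JS_meas _ (obs_meas hW hAc) {1})
  have hz : cH μ (⨆ n, Yn n) (JS (obs W (ind A)) {1}) = 0 := by
    refine cH_eq_zero μ (iSup_le hYnX) _ fun f => ?_
    have h7 : MeasurableSpace.comap (ind A) ⊤ ≤ ⨆ n, Yn n := ind_comap_le (hsup _ hA)
    have h8 : JS (obs W (ind A)) {1} ⁻¹' {f} =
        ind A ⁻¹' {f ⟨1, Finset.mem_singleton_self 1⟩} := by
      ext x
      simp only [Set.mem_preimage, Set.mem_singleton_iff]
      constructor
      · intro h
        rw [← h]
        show ind A x = ind A (W 1 x)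
        rw [hW1]
      · intro h
        funext b
        have hb : b = ⟨1, Finset.mem_singleton_self 1⟩ :=
          Subtype.ext (Finset.mem_singleton.1 b.2)
        rw [hb, ← h]
        show ind A (W 1 x) = ind A x
        rw [hW1]
    rw [h8]
    exact measurableSet_preimage_of_comap _ h7 _
  rw [hz] at hlim
  exact le_antisymm (ge_of_tendsto' hlim hstage) (he_nonneg μ hW bot_le hAc)

theorem zeroEnt_of_generateFrom {G X : Type} [Group G] [Countable G] [Group.IsNilpotent G]
    {mX : MeasurableSpace X} (μ : Measure X) [IsProbabilityMeasure μ] {W : G → X → X}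
    (hW1 : ∀ x, W 1 x = x) (hWmul : ∀ a b x, W (a * b) x = W a (W b x))
    (hWmp : ∀ a, MeasurePreserving (W a) μ μ) {A : Set X}
    (hA : MeasurableSet[MeasurableSpace.generateFrom
      {A | MeasurableSet[mX] A ∧ ZeroEnt μ W A}] A) : ZeroEnt μ W A := by
  classical
  have hW : ∀ a, Measurable (W a) := fun a => (hWmp a).measurable
  have hle : MeasurableSpace.generateFrom {A | MeasurableSet[mX] A ∧ ZeroEnt μ W A} ≤ mX :=
    MeasurableSpace.generateFrom_le fun _ hA => hA.1
  refine zeroEnt_of_he μ hW (hle _ hA) ?_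
  have key : MeasurableSet[mX] A ∧ he μ W ⊤ ⊥ (ind A) = 0 := by
    induction A, hA using MeasurableSpace.generateFrom_induction with
    | hC A hA _ => exact ⟨hA.1, he_of_zeroEnt μ hW hA.1 hA.2⟩
    | empty =>
      refine ⟨MeasurableSet.empty, he_seq μ hW1 hWmul hWmp (fun _ => ∅)
        (fun _ => MeasurableSet.empty) (fun _ => EMaxAux.he_empty μ hWmp) ?_⟩
      exact @MeasurableSet.empty X (MeasurableSpace.generateFrom (Set.range fun _ : ℕ => ∅))
    | compl A hA h =>
      refine ⟨h.1.compl, he_seq μ hW1 hWmul hWmp (fun _ => A) (fun _ => h.1) (fun _ => h.2) ?_⟩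
      exact (MeasurableSpace.measurableSet_generateFrom ⟨0, rfl⟩ : MeasurableSet[
        MeasurableSpace.generateFrom (Set.range fun _ : ℕ => A)] A).compl
    | iUnion s hs h =>
      refine ⟨MeasurableSet.iUnion fun i => (h i).1, he_seq μ hW1 hWmul hWmp s
        (fun i => (h i).1) (fun i => (h i).2) ?_⟩
      exact MeasurableSet.iUnion fun i =>
        MeasurableSpace.measurableSet_generateFrom ⟨i, rfl⟩
  exact key.2

end Pool.Agent.Lib.Pf720zr
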