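import Pool.Agent.Lib.Pf720zr.SysA
import Pool.Agent.Lib.Pf720zr.Pins

/-!
# The product system has zero entropy

The product σ-algebra is generated by the sets `A = {y | y j = z}`, `j : ℕ`, `z : Zq (H j)`. By
`zeroEnt_of_generateFrom` it suffices that these have zero entropy. For a finite set `F` the set
`{y | ∀ g ∈ F, shift H g y ∈ A ↔ g ∈ ω}` depends only on `y j`, so it is nonempty for at most
`n = Nat.card (Zq (H j))` sets `ω ⊆ F`, and these sets are disjoint; the entropy is at most `n`
(`Real.negMulLog x ≤ 1` for `0 ≤ x ≤ 1`, and `negMulLog 0 = 0`), and `F` can be chosen with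
`n ≤ ε * F.card` as `G` is infinite (`Infinite.exists_subset_card_eq`).
-/

set_option autoImplicit false
set_option linter.unusedSectionVars false

open Finset MeasureTheory Filter Topology
open scoped ENNReal

namespace Pool.Agent.Lib.Pf720zr

open Pool.Agent.Lib.Pf720np (ZeroEnt joinEntropy)

lemma negMulLog_le_one {x : ℝ} (hx : 0 ≤ x) : Real.negMulLog x ≤ 1 := by
  rcases eq_or_lt_of_le hx with rfl | h
  · rw [Real.negMulLog_zero]
    exact zero_le_one
  · have h1 := Real.one_sub_inv_le_log_of_pos h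
    have h2 : x * (1 - x⁻¹) ≤ x * Real.log x := mul_le_mul_of_nonneg_left h1 h.le
    rw [mul_sub, mul_one, mul_inv_cancel₀ h.ne'] at h2
    unfold Real.negMulLog
    linarith

theorem cyl_zeroEnt {G : Type} [Group G] [Infinite G]
    (H : ℕ → Subgroup G) [∀ j, (H j).FiniteIndex] (j : ℕ) (z : Zq (H j)) :
    ZeroEnt (sysM H) (shift H) {y | y j = z} := by
  classical
  intro ε hε
  have hfin : Fintype (Zq (H j)) := Fintype.ofFinite _
  obtain ⟨n, hn⟩ := exists_nat_ge ((Fintype.card (Zq (H j)) : ℝ) / ε)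
  obtain ⟨F, hF⟩ := Infinite.exists_subset_card_eq G (n + 1)
  refine ⟨F, Finset.card_pos.1 (by omega), ?_⟩
  set I : Finset (Finset G) := (Finset.univ : Finset (Zq (H j))).image fun v =>
    F.filter fun g => g • v = z with hI
  have hzero : ∀ ω ∈ F.powerset, ω ∉ I → Real.negMulLog ((sysM H).real
      {x | ∀ g ∈ F, shift H g x ∈ {y : (j : ℕ) → Zq (H j) | y j = z} ↔ g ∈ ω}) = 0 := by
    intro ω hω hωI
    have h1 : {x : (j : ℕ) → Zq (H j) | ∀ g ∈ F, shift H g x ∈
        {y : (j : ℕ) → Zq (H j) | y j = z} ↔ g ∈ ω} = ∅ := by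
      rw [Set.eq_empty_iff_forall_notMem]
      intro x hx
      refine hωI (Finset.mem_image.2 ⟨x j, Finset.mem_univ _, ?_⟩)
      ext g
      rw [Finset.mem_filter]
      constructor
      · rintro ⟨hg, hgz⟩
        exact (hx g hg).1 hgz
      · intro hg
        have hgF := Finset.mem_powerset.1 hω hg
        exact ⟨hgF, (hx g hgF).2 hg⟩
    rw [h1, measureReal_empty, Real.negMulLog_zero]
  unfold joinEntropy
  rw [← Finset.sum_filter_of_ne (p := fun ω => ω ∈ I) (fun ω hω hne => by
    by_contra hcon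
    exact hne (hzero ω hω hcon))]
  have h1 : ∑ ω ∈ F.powerset.filter (fun ω => ω ∈ I), Real.negMulLog ((sysM H).real
      {x | ∀ g ∈ F, shift H g x ∈ {y : (j : ℕ) → Zq (H j) | y j = z} ↔ g ∈ ω}) ≤
      ∑ ω ∈ F.powerset.filter (fun ω => ω ∈ I), (1 : ℝ) :=
    Finset.sum_le_sum fun ω _ => negMulLog_le_one measureReal_nonneg
  refine h1.trans ?_
  rw [Finset.sum_const, nsmul_eq_mul, mul_one]
  have h2 : (F.powerset.filter (fun ω => ω ∈ I)).card ≤ Fintype.card (Zq (H j)) := by
    refine (Finset.card_le_card (t := I) fun ω hω => (Finset.mem_filter.1 hω).2).trans ?_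
    exact Finset.card_image_le.trans (by rw [Finset.card_univ])
  have h3 : (Fintype.card (Zq (H j)) : ℝ) ≤ ε * n := by
    rw [div_le_iff₀ hε] at hn
    linarith
  calc ((F.powerset.filter (fun ω => ω ∈ I)).card : ℝ) ≤ Fintype.card (Zq (H j)) := by
        exact_mod_cast h2
    _ ≤ ε * n := h3
    _ ≤ ε * F.card := by
        rw [hF]
        push_cast
        nlinarith

theorem sys_zeroEnt {G : Type} [Group G] [Countable G] [Group.IsNilpotent G] [Infinite G]
    (H : ℕ → Subgroup G) [∀ j, (H j).FiniteIndex] {A : Set ((j : ℕ) → Zq (H j))}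
    (hA : MeasurableSet A) : ZeroEnt (sysM H) (shift H) A := by
  refine zeroEnt_of_generateFrom (sysM H) (fun x => ?_) (fun a b x => ?_)
    (fun a => shift_mp H a) ?_
  · funext j
    exact one_smul G (x j)
  · funext j
    exact mul_smul a b (x j)
  · have h1 : (MeasurableSpace.pi : MeasurableSpace ((j : ℕ) → Zq (H j))) ≤
        MeasurableSpace.generateFrom {A | MeasurableSet A ∧ ZeroEnt (sysM H) (shift H) A} := by
      refine iSup_le fun j => ?_
      rintro _ ⟨s, -, rfl⟩
      have h2 : (fun y : (j : ℕ) → Zq (H j) => y j) ⁻¹' s =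
          ⋃ z ∈ s, {y : (j : ℕ) → Zq (H j) | y j = z} := by
        ext y
        simp
      rw [h2]
      refine MeasurableSet.biUnion (Set.toFinite s).countable fun z _ => ?_
      refine MeasurableSpace.measurableSet_generateFrom ⟨?_, cyl_zeroEnt H j z⟩
      have h3 : Measurable fun y : (j : ℕ) → Zq (H j) => y j := measurable_pi_apply j
      exact h3 (mset_Zq {z})
    exact h1 A hA

end Pool.Agent.Lib.Pf720zr
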