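import Pool.Agent.Lib.Pf720nn.NWrap
import Pool.Agent.Lib.Pf720zr.Seq
import Pool.Agent.Lib.Pf720zr.SysZ

/-!
# The product of finite quotients of the group generated by `T` as a system of the same type
-/

set_option autoImplicit false
set_option linter.unusedSectionVars false

open Finset MeasureTheory Filter Topology
open scoped ENNReal

namespace Pool.Agent.Lib.Pf720zr

open Pool.Agent.Lib.Pf720ae
open Pool.Agent.Lib.Pf720nn
open Pool.Agent.Lib.Pf720np (ZeroEnt joinEntropy gw gens pact pact_gw pact_mul pact_mp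
  countable_closure)

/-- `T` and `S` satisfy the same relations -/
def SameRel {X Y : Type} {d : ℕ} (T : Fin d → Equiv.Perm X) (S : Fin d → Equiv.Perm Y) : Prop :=
  ∀ v : FreeGroup (Fin d), FreeGroup.lift T v = 1 ↔ FreeGroup.lift S v = 1

/-- the action on the product system, as a homomorphism -/
def shiftHom {G : Type} [Group G] (H : ℕ → Subgroup G) :
    G →* Equiv.Perm ((j : ℕ) → Zq (H j)) where
  toFun g := ⟨shift H g, shift H g⁻¹, fun y => by
      funext j; exact inv_smul_smul g (y j), fun y => by
      funext j; exact smul_inv_smul g (y j)⟩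
  map_one' := by
    ext y j
    exact one_smul G (y j)
  map_mul' a b := by
    ext y j
    exact mul_smul a b (y j)

lemma shiftHom_apply {G : Type} [Group G] (H : ℕ → Subgroup G) (g : G)
    (y : (j : ℕ) → Zq (H j)) : shiftHom H g y = shift H g y := rfl

lemma shiftHom_inj {G : Type} [Group G] {K : ℕ → Finset G} {H : ℕ → Subgroup G} {C : ℕ}
    (hT : TileSeq K H C) : Function.Injective (shiftHom H) := by
  rw [injective_iff_map_eq_one]
  intro g hg
  obtain ⟨j, D, hDK, hD, hcard⟩ := hT.fol {g} (1 / 2) (by norm_num)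
  have hne : (0 : ℝ) < (K j).card := by exact_mod_cast (hT.ne j).card_pos
  have hlt : D.card < (K j).card := by
    have : (D.card : ℝ) < (K j).card := by linarith
    exact_mod_cast this
  obtain ⟨k, hk, hkD⟩ := Finset.exists_of_ssubset ((Finset.ssubset_iff_subset_ne).2
    ⟨hDK, fun h => by rw [h] at hlt; exact lt_irrefl _ hlt⟩)
  have hgk : g * k ∈ K j := hD k hk hkD g (Finset.mem_singleton_self g)
  have h1 : (g • ((1 : G) : G ⧸ H j)) = ((1 : G) : G ⧸ H j) := by
    have h2 : shiftHom H g (fun _ => ((1 : G) : G ⧸ H _)) = fun _ => ((1 : G) : G ⧸ H _) := by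
      rw [hg]
      rfl
    exact congrFun h2 j
  have h3 : g ∈ H j := by
    have h4 : ((g * 1 : G) : G ⧸ H j) = ((1 : G) : G ⧸ H j) := h1
    rw [mul_one, QuotientGroup.eq, mul_one] at h4
    exact (inv_mem_iff).1 h4
  have := hT.normal j
  have h5 : k⁻¹ * (g * k) ∈ H j := by
    have := (hT.normal j).conj_mem g h3 k⁻¹
    rw [inv_inv, mul_assoc] at this
    exact this
  have h6 := hT.inj j k hk (g * k) hgk h5
  exact mul_eq_right.1 h6.symm

section sys

variable {X : Type} {d : ℕ} (T : Fin d → Equiv.Perm X)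
  (H : ℕ → Subgroup (Subgroup.closure (Set.range T)))

/-- the maps of the product system -/
def sysT : Fin d → Equiv.Perm ((j : ℕ) → Zq (H j)) := fun i => shiftHom H (gens T i)

lemma lift_gens (v : FreeGroup (Fin d)) :
    ((FreeGroup.lift (gens T) v : Subgroup.closure (Set.range T)) : Equiv.Perm X) =
      FreeGroup.lift T v := by
  have h : (Subgroup.subtype _).comp (FreeGroup.lift (gens T)) = FreeGroup.lift T := by
    ext1 i
    simp [gens]
  exact DFunLike.congr_fun h v

lemma lift_sysT (v : FreeGroup (Fin d)) :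
    FreeGroup.lift (sysT T H) v = shiftHom H (FreeGroup.lift (gens T) v) := by
  have h : (shiftHom H).comp (FreeGroup.lift (gens T)) = FreeGroup.lift (sysT T H) := by
    ext1 i
    simp [sysT]
  exact (DFunLike.congr_fun h v).symm

lemma sameRel_sysT (hinj : Function.Injective (shiftHom H)) : SameRel T (sysT T H) := by
  intro v
  rw [lift_sysT, ← lift_gens]
  constructor
  · intro h
    have h1 : FreeGroup.lift (gens T) v = 1 := Subtype.ext h
    rw [h1, map_one]
  · intro h
    have h1 : FreeGroup.lift (gens T) v = 1 := hinj (h.trans (map_one _).symm)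
    rw [h1]
    rfl

lemma exists_lift (g : Subgroup.closure (Set.range T)) :
    ∃ v : FreeGroup (Fin d), FreeGroup.lift (gens T) v = g := by
  have h1 : (g : Equiv.Perm X) ∈ (FreeGroup.lift T).range := by
    rw [FreeGroup.range_lift_eq_closure]
    exact g.2
  obtain ⟨v, hv⟩ := h1
  exact ⟨v, Subtype.ext ((lift_gens T v).trans hv)⟩

lemma shiftHom_mem (g : Subgroup.closure (Set.range T)) :
    shiftHom H g ∈ Subgroup.closure (Set.range (sysT T H)) := by
  obtain ⟨v, rfl⟩ := exists_lift T g
  have h1 : FreeGroup.lift (sysT T H) v ∈ (FreeGroup.lift (sysT T H)).range := ⟨v, rfl⟩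
  rw [lift_sysT] at h1
  exact (FreeGroup.range_lift_eq_closure (f := sysT T H)).le h1

/-- the identification of the groups -/
def sysInc (g : Subgroup.closure (Set.range T)) : Subgroup.closure (Set.range (sysT T H)) :=
  ⟨shiftHom H g, shiftHom_mem T H g⟩

lemma pact_sysInc (g : Subgroup.closure (Set.range T)) :
    pact (sysT T H) (sysInc T H g) = shift H g := rfl

lemma pact_SP_sysT {κ : Type} (P : Fin d → MvPolynomial κ ℤ) (m : κ → ℕ) :
    pact (sysT T H) (SP (sysT T H) P m) = shift H (SP T P m) := by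
  funext y
  rw [pact_SP]
  have h1 : pw (sysT T H) (fun i => MvPolynomial.eval (fun l => (m l : ℤ)) (P i)) =
      shiftHom H (SP T P m) := by
    unfold pw SP gw
    rw [map_list_prod, List.map_ofFn]
    congr 2
    funext i
    simp only [Function.comp, map_zpow]
    rfl
  rw [h1]
  rfl

end sys

/-- a set has zero entropy if it has zero entropy for a group acting through an injection -/
lemma zeroEnt_of_inj {G G' X : Type} {mX : MeasurableSpace X} {μ : Measure X} {W : G → X → X}
    {W' : G' → X → X} (ψ : G → G') (hψ : Function.Injective ψ) (h : ∀ g, W' (ψ g) = W g)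
    {A : Set X} (hA : ZeroEnt μ W A) : ZeroEnt μ W' A := by
  classical
  intro ε hε
  obtain ⟨F, hF, hle⟩ := hA ε hε
  refine ⟨F.map ⟨ψ, hψ⟩, hF.map, ?_⟩
  rw [Finset.card_map]
  refine le_trans (le_of_eq ?_) hle
  unfold joinEntropy
  symm
  refine Finset.sum_bij (fun ω _ => ω.map ⟨ψ, hψ⟩) ?_ ?_ ?_ ?_
  · intro ω hω
    exact Finset.mem_powerset.2 (Finset.map_subset_map.2 (Finset.mem_powerset.1 hω))
  · intro ω _ ω' _ h
    exact Finset.map_injective _ h
  · intro ω hω
    refine ⟨F.filter fun g => ψ g ∈ ω, Finset.mem_powerset.2 (Finset.filter_subset _ _), ?_⟩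
    ext u
    simp only [Finset.mem_map, Finset.mem_filter, Function.Embedding.coeFn_mk]
    constructor
    · rintro ⟨g, ⟨_, hg⟩, rfl⟩
      exact hg
    · intro hu
      obtain ⟨g, hg, hgu⟩ := Finset.mem_map.1 (Finset.mem_powerset.1 hω hu)
      simp only [Function.Embedding.coeFn_mk] at hgu
      exact ⟨g, ⟨hg, by rw [hgu]; exact hu⟩, hgu⟩
  · intro ω hω
    congr 2
    ext x
    simp only [Set.mem_setOf_eq, Finset.mem_map, Function.Embedding.coeFn_mk]
    constructor
    · rintro hx _ ⟨u, hu, rfl⟩
      rw [h, hx u hu]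
      constructor
      · intro h; exact ⟨u, h, rfl⟩
      · rintro ⟨v, hv, hvu⟩
        rwa [← hψ hvu]
    · intro hx u hu
      have := hx (ψ u) ⟨u, hu, rfl⟩
      rw [h] at this
      rw [this]
      constructor
      · rintro ⟨v, hv, hvu⟩
        rwa [← hψ hvu]
      · intro h; exact ⟨u, h, rfl⟩

end Pool.Agent.Lib.Pf720zr
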