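import Pool.Agent.Lib.Pf720zr.Tile

/-!
# Transference from finite quotients to arbitrary actions

Let `ε > 0`, `ε₁ = ε / (3 * (C + 1))`, `δ₁, N` from `UnifFin` for `ε₁`, `δ = ε / 3 * δ₁`. Let `g` be as in `UnifBd`
with `∫⁻ ofReal g ≤ ofReal δ`. For `R : ℕ` let
`B R = {x | ∃ M, (∀ l, N ≤ M l ∧ M l ≤ R) ∧ ε < avg M (fun m => g (W (w m) x))}`: measurable (a finite union),
increasing in `R`, with union `Bad (fun m => W (w m)) N ε g` (`R = ∑ l, M l`), so it is enough to prove
`μ (B R) ≤ ofReal ε` for every `R` (continuity from below, `measure_iUnion_le`/`tendsto_measure_iUnion_atTop`).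
Let `S` be the finite set of all `w m`, `m l ≤ R`, and choose `j, D` from `TileSeq.fol` for `S` and `ε / 3`.
For `x` let `f k = g (W k x)`. If `∑ k ∈ K j, g (W k x) ≤ δ₁ * (K j).card` then by `orbit_bound` (with `ε₁`;
`ε₁ ≤ ε`, and `g (W (w m) (W k x)) = f (w m * k)`)
`#{k ∈ K j | W k x ∈ B R} ≤ D.card + ε₁ * C * (K j).card ≤ 2 * ε / 3 * (K j).card`; otherwise it is at most
`(K j).card`. The exceptional set `V = {x | δ₁ * (K j).card < ∑ k ∈ K j, g (W k x)}` has
`μ V ≤ ofReal (ε / 3)` by Markov (`∫⁻ ∑ k ∈ K j, ofReal (g (W k x)) = (K j).card * ∫⁻ ofReal g`). Finally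
`(K j).card * μ (B R) = ∑ k ∈ K j, μ ((W k) ⁻¹' B R) = ∫⁻ x, #{k ∈ K j | W k x ∈ B R} ≤
(K j).card * (ofReal (2 * ε / 3) + μ V)`.
-/

set_option autoImplicit false
set_option linter.unusedSectionVars false

open Finset MeasureTheory Filter Topology
open scoped ENNReal

namespace Pool.Agent.Lib.Pf720zr

open Pool.Agent.Lib.Pf720ae

/-- the bad set in a bounded range of scales -/
def BadR {κ X : Type} [Fintype κ] [DecidableEq κ] (U : (κ → ℕ) → X → X) (N R : ℕ) (ε : ℝ)
    (g : X → ℝ) : Set X :=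
  {x | ∃ M : κ → ℕ, (∀ l, N ≤ M l ∧ M l ≤ R) ∧ ε < avg M fun m => g (U m x)}

lemma meas_BadR {κ X : Type} [Fintype κ] [DecidableEq κ] {mX : MeasurableSpace X}
    {U : (κ → ℕ) → X → X} (hU : ∀ m, Measurable (U m)) {g : X → ℝ}
    (hg : Measurable g) (N R : ℕ) (ε : ℝ) : MeasurableSet (BadR U N R ε g) := by
  have e : BadR U N R ε g = ⋃ M : κ → ℕ, ⋃ _ : ∀ l, N ≤ M l ∧ M l ≤ R,
      {x | ε < avg M fun m => g (U m x)} := by
    ext x
    simp only [BadR, Set.mem_setOf_eq, Set.mem_iUnion, exists_prop]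
  rw [e]
  refine MeasurableSet.iUnion fun M => MeasurableSet.iUnion fun _ =>
    measurableSet_lt measurable_const ?_
  unfold avg
  exact (Finset.measurable_fun_sum _ fun m _ => hg.comp (hU m)).const_mul _

lemma Bad_eq_iUnion {κ X : Type} [Fintype κ] [DecidableEq κ] (U : (κ → ℕ) → X → X) (N : ℕ)
    (ε : ℝ) (g : X → ℝ) : Bad U N ε g = ⋃ R, BadR U N R ε g := by
  ext x
  simp only [Bad, BadR, Set.mem_setOf_eq, Set.mem_iUnion]
  constructor
  · rintro ⟨M, hM, hlt⟩
    exact ⟨∑ l, M l, M, fun l => ⟨hM l, Finset.single_le_sum (f := M) (fun _ _ => Nat.zero_le _)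
      (Finset.mem_univ l)⟩, hlt⟩
  · rintro ⟨R, M, hM, hlt⟩
    exact ⟨M, fun l => (hM l).1, hlt⟩

lemma BadR_mono {κ X : Type} [Fintype κ] [DecidableEq κ] (U : (κ → ℕ) → X → X) (N : ℕ)
    (ε : ℝ) (g : X → ℝ) : Monotone fun R => BadR U N R ε g := by
  intro a b hab x hx
  obtain ⟨M, hM, hlt⟩ := hx
  exact ⟨M, fun l => ⟨(hM l).1, (hM l).2.trans hab⟩, hlt⟩

theorem transference {κ G X : Type} [Fintype κ] [DecidableEq κ] [Group G]
    {mX : MeasurableSpace X} (μ : Measure X) [IsProbabilityMeasure μ] {W : G → X → X}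
    (hWmul : ∀ a b x, W (a * b) x = W a (W b x)) (hWmp : ∀ a, MeasurePreserving (W a) μ μ)
    {K : ℕ → Finset G} {H : ℕ → Subgroup G} {C : ℕ} (hT : TileSeq K H C) (w : (κ → ℕ) → G)
    (h : UnifFin H w) : UnifBd μ fun m => W (w m) := by
  classical
  intro ε hε
  set ε₁ : ℝ := ε / (3 * (C + 1)) with hε₁
  have hε₁0 : 0 < ε₁ := by positivity
  have hC0 : (0 : ℝ) ≤ C := Nat.cast_nonneg _
  have hε₁ε : ε₁ ≤ ε := by
    rw [hε₁, div_le_iff₀ (by positivity)]
    nlinarith
  have hε₁C : ε₁ * C ≤ ε / 3 := by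
    rw [hε₁, div_mul_eq_mul_div, div_le_div_iff₀ (by positivity) (by norm_num)]
    nlinarith
  obtain ⟨δ₁, hδ₁, N, hN⟩ := h ε₁ hε₁0
  refine ⟨ε / 3 * δ₁, by positivity, N, fun g hg h0 h1 hint => ?_⟩
  have hWm : ∀ m, Measurable (W (w m)) := fun m => (hWmp _).measurable
  rw [Bad_eq_iUnion, (BadR_mono _ N ε g).measure_iUnion]
  refine iSup_le fun R => ?_
  have hBm : MeasurableSet (BadR (fun m => W (w m)) N R ε g) := meas_BadR hWm hg N R ε
  set B : Set X := BadR (fun m => W (w m)) N R ε g with hB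
  obtain ⟨j, D, hDK, hD, hDc⟩ := hT.fol
    ((Fintype.piFinset fun _ : κ => Finset.range (R + 1)).image w) (ε / 3) (by positivity)
  have hn : (0 : ℝ) < (K j).card := by exact_mod_cast (hT.ne j).card_pos
  have hcount : ∀ x, ∑ k ∈ K j, g (W k x) ≤ δ₁ * (K j).card →
      (((K j).filter fun k => W k x ∈ B).card : ℝ) ≤ 2 * ε / 3 * (K j).card := by
    intro x hx
    have h2 := orbit_bound hT w hε₁0.le hδ₁.le j (hN j) D R
      (fun k hk hkD m hm => hD k hk hkD _ (Finset.mem_image_of_mem _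
        (Fintype.mem_piFinset.2 fun l => Finset.mem_range.2 (Nat.lt_succ_of_le (hm l)))))
      (fun k => g (W k x)) (fun k => h0 _) (fun k => h1 _) hx
    have hsub : ((K j).filter fun k => W k x ∈ B) ⊆ D ∪ (K j).filter fun k => k ∉ D ∧
        ∃ M : κ → ℕ, (∀ l, N ≤ M l ∧ M l ≤ R) ∧ ε₁ < avg M fun m => g (W (w m * k) x) := by
      intro k hk
      rw [Finset.mem_filter] at hk
      by_cases hkD : k ∈ D
      · exact Finset.mem_union_left _ hkD
      · refine Finset.mem_union_right _ (Finset.mem_filter.2 ⟨hk.1, hkD, ?_⟩)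
        obtain ⟨M, hM, hlt⟩ := hk.2
        refine ⟨M, hM, lt_of_le_of_lt hε₁ε (lt_of_lt_of_eq hlt (avg_congr fun m _ => ?_))⟩
        rw [hWmul]
    have h3 := (Finset.card_le_card hsub).trans (Finset.card_union_le _ _)
    have h4 : (((K j).filter fun k => W k x ∈ B).card : ℝ) ≤ D.card +
        ((K j).filter fun k => k ∉ D ∧ ∃ M : κ → ℕ, (∀ l, N ≤ M l ∧ M l ≤ R) ∧
          ε₁ < avg M fun m => g (W (w m * k) x)).card := by exact_mod_cast h3
    have h5 : ε₁ * C * (K j).card ≤ ε / 3 * (K j).card :=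
      mul_le_mul_of_nonneg_right hε₁C hn.le
    have h6 : 2 * ε / 3 * ((K j).card : ℝ) = ε / 3 * (K j).card + ε / 3 * (K j).card := by ring
    rw [h6]
    refine h4.trans (add_le_add hDc (le_trans ?_ h5))
    convert h2 using 3
  -- the exceptional set
  set V : Set X := {x | δ₁ * (K j).card < ∑ k ∈ K j, g (W k x)} with hV
  have hsm : Measurable fun x => ∑ k ∈ K j, g (W k x) :=
    Finset.measurable_fun_sum _ fun k _ => hg.comp (hWmp k).measurable
  have hVm : MeasurableSet V := measurableSet_lt measurable_const hsm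
  have hgm : ∀ k, Measurable fun x => ENNReal.ofReal (g (W k x)) := fun k =>
    (hg.comp (hWmp k).measurable).ennreal_ofReal
  have hVμ : μ V ≤ ENNReal.ofReal (ε / 3) := by
    have h2 : ENNReal.ofReal (δ₁ * (K j).card) * μ V ≤
        ∫⁻ x, ENNReal.ofReal (∑ k ∈ K j, g (W k x)) ∂μ := by
      refine le_trans ?_ (mul_meas_ge_le_lintegral hsm.ennreal_ofReal
        (ENNReal.ofReal (δ₁ * (K j).card)))
      refine mul_le_mul_right (measure_mono fun x hx => ?_) _
      exact ENNReal.ofReal_le_ofReal (le_of_lt hx)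
    have h3 : ∫⁻ x, ENNReal.ofReal (∑ k ∈ K j, g (W k x)) ∂μ =
        (K j).card * ∫⁻ x, ENNReal.ofReal (g x) ∂μ := by
      have e1 : ∀ x, ENNReal.ofReal (∑ k ∈ K j, g (W k x)) =
          ∑ k ∈ K j, ENNReal.ofReal (g (W k x)) := fun x =>
        ENNReal.ofReal_sum_of_nonneg fun k _ => h0 _
      simp only [e1]
      rw [lintegral_finsetSum _ fun k _ => hgm k]
      have e2 : ∀ k, ∫⁻ x, ENNReal.ofReal (g (W k x)) ∂μ = ∫⁻ x, ENNReal.ofReal (g x) ∂μ :=
        fun k => (hWmp k).lintegral_comp hg.ennreal_ofReal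
      simp only [e2]
      rw [Finset.sum_const, nsmul_eq_mul]
    have h4 : ENNReal.ofReal (δ₁ * (K j).card) * μ V ≤
        ENNReal.ofReal (δ₁ * (K j).card) * ENNReal.ofReal (ε / 3) := by
      refine h2.trans ?_
      rw [h3]
      refine (mul_le_mul_right hint _).trans (le_of_eq ?_)
      rw [← ENNReal.ofReal_natCast, ← ENNReal.ofReal_mul (Nat.cast_nonneg _),
        ← ENNReal.ofReal_mul (by positivity)]
      congr 1
      ring
    have h5 : ENNReal.ofReal (δ₁ * (K j).card) ≠ 0 := (ENNReal.ofReal_pos.2 (by positivity)).ne'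
    exact (ENNReal.mul_le_mul_iff_right h5 ENNReal.ofReal_ne_top).1 h4
  -- integration of the count
  have hint2 : ((K j).card : ℝ≥0∞) * μ B =
      ∫⁻ x, ((((K j).filter fun k => W k x ∈ B).card : ℕ) : ℝ≥0∞) ∂μ := by
    have e1 : ∀ x, ((((K j).filter fun k => W k x ∈ B).card : ℕ) : ℝ≥0∞) =
        ∑ k ∈ K j, (W k ⁻¹' B).indicator (fun _ => (1 : ℝ≥0∞)) x := by
      intro x
      rw [Finset.card_filter]
      push_cast
      refine Finset.sum_congr rfl fun k _ => ?_
      by_cases hk : W k x ∈ B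
      · rw [if_pos hk, Set.indicator_of_mem (show x ∈ W k ⁻¹' B from hk)]
      · rw [if_neg hk, Set.indicator_of_notMem (show x ∉ W k ⁻¹' B from hk)]
    simp only [e1]
    rw [lintegral_finsetSum _ fun k _ =>
      (measurable_const.indicator ((hWmp k).measurable hBm))]
    have e2 : ∀ k, ∫⁻ x, (W k ⁻¹' B).indicator (fun _ => (1 : ℝ≥0∞)) x ∂μ = μ B := by
      intro k
      rw [lintegral_indicator ((hWmp k).measurable hBm), lintegral_const, one_mul,
        Measure.restrict_apply_univ, (hWmp k).measure_preimage hBm.nullMeasurableSet]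
    simp only [e2]
    rw [Finset.sum_const, nsmul_eq_mul]
  have hle : ((K j).card : ℝ≥0∞) * μ B ≤ (K j).card * ENNReal.ofReal ε := by
    rw [hint2]
    have h2 : ∀ x, ((((K j).filter fun k => W k x ∈ B).card : ℕ) : ℝ≥0∞) ≤
        (K j).card * ENNReal.ofReal (2 * ε / 3) +
          V.indicator (fun _ => ((K j).card : ℝ≥0∞)) x := by
      intro x
      by_cases hx : x ∈ V
      · rw [Set.indicator_of_mem hx]
        refine le_trans ?_ le_add_self
        exact_mod_cast Finset.card_filter_le _ _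
      · rw [Set.indicator_of_notMem hx, add_zero]
        have h3 := hcount x (not_lt.1 hx)
        rw [← ENNReal.ofReal_natCast, ← ENNReal.ofReal_natCast,
          ← ENNReal.ofReal_mul (Nat.cast_nonneg _)]
        refine ENNReal.ofReal_le_ofReal (h3.trans (le_of_eq (mul_comm _ _)))
    refine (lintegral_mono h2).trans ?_
    rw [lintegral_add_left measurable_const, lintegral_const, measure_univ, mul_one,
      lintegral_indicator hVm, lintegral_const, Measure.restrict_apply_univ, ← mul_add]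
    refine mul_le_mul_right ?_ _
    calc ENNReal.ofReal (2 * ε / 3) + μ V
        ≤ ENNReal.ofReal (2 * ε / 3) + ENNReal.ofReal (ε / 3) := add_le_add_right hVμ _
      _ = ENNReal.ofReal ε := by
          rw [← ENNReal.ofReal_add (by positivity) (by positivity)]
          congr 1
          ring
  have hn0 : ((K j).card : ℝ≥0∞) ≠ 0 := by exact_mod_cast (hT.ne j).card_pos.ne'
  exact (ENNReal.mul_le_mul_iff_right hn0 (ENNReal.natCast_ne_top _)).1 hle

end Pool.Agent.Lib.Pf720zr
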