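import Pool.Agent.Lib.Pf720ae.Avg
import Pool.Agent.Lib.Pf720zr.Defs

/-!
# The uniform form of the asymptotic maximal inequality
-/

set_option autoImplicit false
set_option linter.unusedSectionVars false

open Finset MeasureTheory Filter Topology
open scoped ENNReal

namespace Pool.Agent.Lib.Pf720zr

open Pool.Agent.Lib.Pf720ae

/-- the exceptional set of large averages -/
def Bad {κ X : Type} [Fintype κ] [DecidableEq κ] (U : (κ → ℕ) → X → X) (N : ℕ) (ε : ℝ)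
    (g : X → ℝ) : Set X :=
  {x | ∃ M : κ → ℕ, (∀ l, N ≤ M l) ∧ ε < avg M fun m => g (U m x)}

/-- small bounded functions have small averages beyond a uniform scale, outside of small sets -/
def UnifBd {κ X : Type} [Fintype κ] [DecidableEq κ] {mX : MeasurableSpace X} (μ : Measure X)
    (U : (κ → ℕ) → X → X) : Prop :=
  ∀ ε : ℝ, 0 < ε → ∃ δ : ℝ, 0 < δ ∧ ∃ N : ℕ, ∀ g : X → ℝ, Measurable g → (∀ x, 0 ≤ g x) →
    (∀ x, g x ≤ 1) → ∫⁻ x, ENNReal.ofReal (g x) ∂μ ≤ ENNReal.ofReal δ →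
    μ (Bad U N ε g) ≤ ENNReal.ofReal ε

/-- the same for the finite `G`-sets `G ⧸ H j`, uniformly in `j` -/
def UnifFin {κ G : Type} [Fintype κ] [DecidableEq κ] [Group G] (H : ℕ → Subgroup G)
    (w : (κ → ℕ) → G) : Prop :=
  ∀ ε : ℝ, 0 < ε → ∃ δ : ℝ, 0 < δ ∧ ∃ N : ℕ, ∀ (j : ℕ) (φ : G ⧸ H j → ℝ), (∀ y, 0 ≤ φ y) →
    (∀ y, φ y ≤ 1) → ∑ᶠ y, φ y ≤ δ * Nat.card (G ⧸ H j) →
    ((Bad (fun m y => w m • y) N ε φ).ncard : ℝ) ≤ ε * Nat.card (G ⧸ H j)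

end Pool.Agent.Lib.Pf720zr
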