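import Pool.Agent.Lib.Pf720nn.NLim
import Pool.Agent.Lib.Pf720zr.UDefs

/-!
# The asymptotic maximal inequality is uniform

For `g : ℕ → X → ℝ` with values in `[0, 1]` put
`T n x = (min 1 (∑' i, ENNReal.ofReal (g (n + i) x))).toReal`: measurable, `0 ≤ T n x ≤ 1`,
`g i x ≤ T n x` for `i ≥ n`, and `ENNReal.ofReal (T n x) ≤ ∑' i, ENNReal.ofReal (g (n + i) x)`.

`unif_of_limBd`: otherwise there is `ε > 0` such that for all `i` there is `g i` with
`∫⁻ ofReal (g i) ≤ ofReal (2⁻¹ ^ i)` and `μ (Bad U i ε (g i)) > ofReal ε`. `∫⁻ ofReal (T n) ≤ 2 * 2⁻¹ ^ n` is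
summable, so by `LimBd` for `T` and `η = ε`: for a.e. `x` there are `n` and `M₀` with
`avg M (fun m => T n (U m x)) ≤ ε` for all `M ≥ M₀`. The sets `Bad U i ε (g i)` are measurable (countable
union over `M`), so `μ (limsup (Bad U i ε (g i))) ≥ ofReal ε` (`limsup = ⋂ n, ⋃ i ≥ n`, decreasing in `n`,
`tendsto_measure_iInter_atTop`), hence there is such an `x` in the limsup. Take `i ≥ n` larger than all
`M₀ l` with `x ∈ Bad U i ε (g i)`: `ε < avg M (g i (U m x)) ≤ avg M (T n (U m x)) ≤ ε` for some `M ≥ M₀`.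

`limBd_of_unif`: let `∑' i, ∫⁻ ofReal (g i) ≠ ⊤`. For `η > 0` let `F n = {x | ¬ ∀ᶠ M in atTop,
avg M (fun m => T n (U m x)) ≤ η}`. For `0 < ε ≤ η` take `δ, N` from `UnifBd`, and `n` with
`∫⁻ ofReal (T n) ≤ ∑' i, ∫⁻ ofReal (g (n + i)) ≤ ofReal δ` (tails of a convergent sum:
`ENNReal.tendsto_sum_nat_add`); `F n ⊆ Bad U N ε (T n)`, so `μ (⋂ n, F n) ≤ ofReal ε` for all small `ε`, and
`μ (⋂ n, F n) = 0`. Outside of it (for all `η = 1 / (k + 1)`), there is `n` with
`avg M (g i (U m x)) ≤ avg M (T n (U m x)) ≤ η` eventually in `M`, for all `i ≥ n` (`avg_mono`).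
-/

set_option autoImplicit false
set_option linter.unusedSectionVars false

open Finset MeasureTheory Filter Topology
open scoped ENNReal

namespace Pool.Agent.Lib.Pf720zr

open Pool.Agent.Lib.Pf720ae
open Pool.Agent.Lib.Pf720nn (LimBd)

variable {κ X : Type} [Fintype κ] [DecidableEq κ] {mX : MeasurableSpace X} {μ : Measure X}

/-- the truncated tails -/
noncomputable def Tl (g : ℕ → X → ℝ) (n : ℕ) (x : X) : ℝ :=
  (min 1 (∑' i, ENNReal.ofReal (g (n + i) x))).toReal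

lemma Tl_meas {g : ℕ → X → ℝ} (hg : ∀ i, Measurable (g i)) (n : ℕ) : Measurable (Tl g n) := by
  unfold Tl
  exact (measurable_const.min (Measurable.ennreal_tsum fun i =>
    (hg (n + i)).ennreal_ofReal)).ennreal_toReal

lemma Tl_nonneg (g : ℕ → X → ℝ) (n : ℕ) (x : X) : 0 ≤ Tl g n x := ENNReal.toReal_nonneg

lemma Tl_le_one (g : ℕ → X → ℝ) (n : ℕ) (x : X) : Tl g n x ≤ 1 := by
  unfold Tl
  have h : min 1 (∑' i, ENNReal.ofReal (g (n + i) x)) ≤ 1 := min_le_left _ _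
  have h2 := ENNReal.toReal_mono ENNReal.one_ne_top h
  rwa [ENNReal.toReal_one] at h2

lemma le_Tl {g : ℕ → X → ℝ} (h0 : ∀ i x, 0 ≤ g i x) (h1 : ∀ i x, g i x ≤ 1) {n i : ℕ}
    (hi : n ≤ i) (x : X) : g i x ≤ Tl g n x := by
  unfold Tl
  obtain ⟨j, rfl⟩ := Nat.exists_eq_add_of_le hi
  have h2 : ENNReal.ofReal (g (n + j) x) ≤ min 1 (∑' i, ENNReal.ofReal (g (n + i) x)) := by
    refine le_min ?_ (ENNReal.le_tsum (f := fun i => ENNReal.ofReal (g (n + i) x)) j)
    exact ENNReal.ofReal_le_one.2 (h1 _ _)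
  have h3 : min 1 (∑' i, ENNReal.ofReal (g (n + i) x)) ≠ ⊤ :=
    ne_top_of_le_ne_top ENNReal.one_ne_top (min_le_left _ _)
  have h4 := ENNReal.toReal_mono h3 h2
  rwa [ENNReal.toReal_ofReal (h0 _ _)] at h4

lemma ofReal_Tl (g : ℕ → X → ℝ) (n : ℕ) (x : X) :
    ENNReal.ofReal (Tl g n x) ≤ ∑' i, ENNReal.ofReal (g (n + i) x) := by
  unfold Tl
  have h3 : min 1 (∑' i, ENNReal.ofReal (g (n + i) x)) ≠ ⊤ :=
    ne_top_of_le_ne_top ENNReal.one_ne_top (min_le_left _ _)
  rw [ENNReal.ofReal_toReal h3]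
  exact min_le_right _ _

lemma int_Tl {g : ℕ → X → ℝ} (hg : ∀ i, Measurable (g i)) (n : ℕ) :
    ∫⁻ x, ENNReal.ofReal (Tl g n x) ∂μ ≤ ∑' i, ∫⁻ x, ENNReal.ofReal (g (n + i) x) ∂μ := by
  rw [← lintegral_tsum fun i => ((hg (n + i)).ennreal_ofReal).aemeasurable]
  exact lintegral_mono fun x => ofReal_Tl g n x

lemma meas_avg {U : (κ → ℕ) → X → X} (hU : ∀ m, Measurable (U m)) {g : X → ℝ}
    (hg : Measurable g) (M : κ → ℕ) : Measurable fun x => avg M fun m => g (U m x) := by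
  unfold avg
  exact (Finset.measurable_fun_sum _ fun m _ => hg.comp (hU m)).const_mul _

lemma meas_Bad {U : (κ → ℕ) → X → X} (hU : ∀ m, Measurable (U m)) {g : X → ℝ}
    (hg : Measurable g) (N : ℕ) (ε : ℝ) : MeasurableSet (Bad U N ε g) := by
  have e : Bad U N ε g = ⋃ M : κ → ℕ, ⋃ _ : ∀ l, N ≤ M l,
      {x | ε < avg M fun m => g (U m x)} := by
    ext x
    simp only [Bad, Set.mem_setOf_eq, Set.mem_iUnion, exists_prop]
  rw [e]
  exact MeasurableSet.iUnion fun M => MeasurableSet.iUnion fun _ =>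
    measurableSet_lt measurable_const (meas_avg hU hg M)

theorem unif_of_limBd [IsProbabilityMeasure μ] {U : (κ → ℕ) → X → X} (hU : ∀ m, Measurable (U m))
    (h : LimBd μ U) : UnifBd μ U := by
  intro ε hε
  by_contra hcon
  push Not at hcon
  choose g hg h0 h1 hint hbad using fun i : ℕ => hcon ((1 / 2 : ℝ) ^ i) (by positivity) i
  -- the tails
  have hgeo : ∀ n, ∫⁻ x, ENNReal.ofReal (Tl g n x) ∂μ ≤ 2 * (2⁻¹ : ℝ≥0∞) ^ n := by
    intro n
    refine (int_Tl hg n).trans ?_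
    have h2 : ∀ i, ∫⁻ x, ENNReal.ofReal (g (n + i) x) ∂μ ≤
        (2⁻¹ : ℝ≥0∞) ^ n * (2⁻¹ : ℝ≥0∞) ^ i := by
      intro i
      refine (hint (n + i)).trans (le_of_eq ?_)
      rw [ENNReal.ofReal_pow (by norm_num), ← pow_add]
      congr 1
      rw [one_div, ENNReal.ofReal_inv_of_pos (by norm_num)]
      norm_num
    refine (ENNReal.tsum_le_tsum h2).trans ?_
    rw [ENNReal.tsum_mul_left, ENNReal.tsum_geometric, ENNReal.one_sub_inv_two, inv_inv, mul_comm]
  have hsum : ∑' n, ∫⁻ x, ENNReal.ofReal (Tl g n x) ∂μ ≠ ⊤ := by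
    refine ne_top_of_le_ne_top ?_ (ENNReal.tsum_le_tsum hgeo)
    rw [ENNReal.tsum_mul_left, ENNReal.tsum_geometric, ENNReal.one_sub_inv_two, inv_inv]
    norm_num
  have hae := h (Tl g) (fun n => Tl_meas hg n) (fun n x => Tl_nonneg g n x)
    (fun n x => Tl_le_one g n x) hsum
  -- the limsup
  set E : ℕ → Set X := fun n => ⋃ i, Bad U (n + i) ε (g (n + i)) with hE
  have hEm : ∀ n, MeasurableSet (E n) := fun n =>
    MeasurableSet.iUnion fun i => meas_Bad hU (hg _) _ _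
  have hanti : Antitone E := by
    intro a b hab
    refine Set.iUnion_subset fun i => ?_
    obtain ⟨c, rfl⟩ := Nat.exists_eq_add_of_le hab
    intro x hx
    refine Set.mem_iUnion.2 ⟨c + i, ?_⟩
    rw [← add_assoc]
    exact hx
  have hlim := tendsto_measure_iInter_atTop (μ := μ) (fun n => (hEm n).nullMeasurableSet)
    hanti ⟨0, measure_ne_top _ _⟩
  have hge : ENNReal.ofReal ε ≤ μ (⋂ n, E n) := by
    refine ge_of_tendsto' hlim fun n => ?_
    refine (hbad n).le.trans (measure_mono ?_)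
    intro x hx
    exact Set.mem_iUnion.2 ⟨0, hx⟩
  have hpos : (0 : ℝ≥0∞) < μ (⋂ n, E n) := lt_of_lt_of_le (ENNReal.ofReal_pos.2 hε) hge
  have hnull : μ (⋂ n, E n) = 0 := by
    refine measure_mono_null ?_ (ae_iff.1 hae)
    intro x hx hgood
    obtain ⟨n, hn⟩ := (hgood ε hε).exists
    obtain ⟨M₀, hM₀⟩ := eventually_atTop.1 hn
    have h2 := Set.mem_iInter.1 hx (n + ∑ l, M₀ l)
    obtain ⟨i, hi⟩ := Set.mem_iUnion.1 h2
    obtain ⟨M, hM, hlt⟩ := hi
    have hMM : M₀ ≤ M := by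
      intro l
      have h3 := hM l
      have h4 : M₀ l ≤ ∑ l, M₀ l := Finset.single_le_sum (f := M₀) (fun _ _ => Nat.zero_le _)
        (Finset.mem_univ l)
      show M₀ l ≤ M l
      omega
    have h5 := hM₀ M hMM
    have h6 : avg M (fun m => g (n + ∑ l, M₀ l + i) (U m x)) ≤
        avg M fun m => Tl g n (U m x) :=
      avg_mono M fun m => le_Tl h0 h1 (by omega) _
    linarith
  rw [hnull] at hpos
  exact lt_irrefl _ hpos

theorem limBd_of_unif [IsProbabilityMeasure μ] {U : (κ → ℕ) → X → X} (h : UnifBd μ U) :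
    LimBd μ U := by
  intro g hg h0 h1 hs
  have htail : Tendsto (fun n => ∑' i, ∫⁻ x, ENNReal.ofReal (g (n + i) x) ∂μ) atTop (𝓝 0) := by
    have h2 := ENNReal.tendsto_sum_nat_add (fun i => ∫⁻ x, ENNReal.ofReal (g i x) ∂μ) hs
    refine h2.congr fun n => ?_
    refine tsum_congr fun i => ?_
    rw [add_comm]
  set F : ℝ → Set X := fun η => {x | ∀ n, ¬ ∀ᶠ M in atTop, avg M (fun m => Tl g n (U m x)) ≤ η}
    with hF
  have hFnull : ∀ η, 0 < η → μ (F η) = 0 := by
    intro η hη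
    refine le_antisymm (le_of_forall_gt fun c hc => ?_) zero_le
    obtain ⟨ε, hε, hεη, hεc⟩ : ∃ ε : ℝ, 0 < ε ∧ ε ≤ η ∧ ENNReal.ofReal ε < c := by
      rcases eq_or_ne c ⊤ with rfl | hctop
      · exact ⟨η, hη, le_rfl, ENNReal.ofReal_lt_top⟩
      · have hc' : 0 < c.toReal := ENNReal.toReal_pos hc.ne' hctop
        refine ⟨min η (c.toReal / 2), lt_min hη (by positivity), min_le_left _ _, ?_⟩
        have h9 : min η (c.toReal / 2) < c.toReal :=
          lt_of_le_of_lt (min_le_right _ _) (by linarith)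
        exact ((ENNReal.ofReal_lt_ofReal_iff hc').2 h9).trans_le ENNReal.ofReal_toReal_le
    obtain ⟨δ, hδ, N, hN⟩ := h ε hε
    obtain ⟨n, hn⟩ := (htail.eventually_lt_const (ENNReal.ofReal_pos.2 hδ)).exists
    have h2 := hN (Tl g n) (Tl_meas hg n) (Tl_nonneg g n) (Tl_le_one g n)
      ((int_Tl hg n).trans hn.le)
    refine lt_of_le_of_lt ((measure_mono ?_).trans h2) hεc
    intro x hx
    by_contra hcon
    refine hx n ?_
    filter_upwards [eventually_ge_atTop (fun _ : κ => N)] with M hM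
    by_contra hcon2
    push Not at hcon2
    exact hcon ⟨M, hM, lt_of_le_of_lt hεη hcon2⟩
  have hall : ∀ᵐ x ∂μ, ∀ k : ℕ, x ∉ F (1 / ((k : ℝ) + 1)) := by
    rw [ae_all_iff]
    intro k
    exact measure_eq_zero_iff_ae_notMem.1 (hFnull _ (by positivity))
  filter_upwards [hall] with x hx η hη
  obtain ⟨k, hk⟩ := exists_nat_one_div_lt hη
  have h2 := hx k
  simp only [hF, Set.mem_setOf_eq, not_forall, not_not] at h2
  obtain ⟨n, hn⟩ := h2
  filter_upwards [eventually_ge_atTop n] with i hi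
  filter_upwards [hn] with M hM
  refine le_trans (avg_mono M fun m => le_Tl h0 h1 hi _) (hM.trans hk.le)

/-- for a finite group -/
theorem limBd_of_finite [IsProbabilityMeasure μ] {G : Type} [Finite G] {W : G → X → X}
    (hW : ∀ a, MeasurePreserving (W a) μ μ) (w : (κ → ℕ) → G) :
    LimBd μ fun m => W (w m) := by
  have := Fintype.ofFinite G
  intro g hg h0 h1 hs
  have hfin : ∫⁻ x, ∑' i, ∑ a, ENNReal.ofReal (g i (W a x)) ∂μ ≠ ⊤ := by
    have hm : ∀ i a, Measurable fun x => ENNReal.ofReal (g i (W a x)) := fun i a =>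
      ((hg i).comp (hW a).measurable).ennreal_ofReal
    rw [lintegral_tsum fun i => (Finset.measurable_fun_sum _ fun a _ => hm i a).aemeasurable]
    have e : ∀ i, ∫⁻ x, ∑ a, ENNReal.ofReal (g i (W a x)) ∂μ =
        (Fintype.card G : ℝ≥0∞) * ∫⁻ x, ENNReal.ofReal (g i x) ∂μ := by
      intro i
      rw [lintegral_finsetSum _ fun a _ => hm i a]
      have e2 : ∀ a, ∫⁻ x, ENNReal.ofReal (g i (W a x)) ∂μ = ∫⁻ x, ENNReal.ofReal (g i x) ∂μ :=
        fun a => (hW a).lintegral_comp (hg i).ennreal_ofReal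
      simp only [e2]
      rw [Finset.sum_const, nsmul_eq_mul, Finset.card_univ]
    simp only [e]
    rw [ENNReal.tsum_mul_left]
    exact ENNReal.mul_ne_top (ENNReal.natCast_ne_top _) hs
  have hae : ∀ᵐ x ∂μ, ∑' i, ∑ a, ENNReal.ofReal (g i (W a x)) < ⊤ := by
    refine ae_lt_top (Measurable.ennreal_tsum fun i => ?_) hfin
    exact Finset.measurable_fun_sum _ fun a _ => ((hg i).comp (hW a).measurable).ennreal_ofReal
  filter_upwards [hae] with x hx η hη
  have ht := ENNReal.tendsto_atTop_zero_of_tsum_ne_top hx.ne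
  filter_upwards [ht.eventually_lt_const (ENNReal.ofReal_pos.2 hη)] with i hi
  refine Eventually.of_forall fun M => ?_
  refine avg_le_of_le hη.le fun m => ?_
  have h2 : ENNReal.ofReal (g i (W (w m) x)) ≤ ∑ a, ENNReal.ofReal (g i (W a x)) :=
    Finset.single_le_sum (f := fun a => ENNReal.ofReal (g i (W a x))) (fun _ _ => zero_le)
      (Finset.mem_univ (w m))
  exact ((ENNReal.ofReal_lt_ofReal_iff hη).1 (lt_of_le_of_lt h2 hi)).le

end Pool.Agent.Lib.Pf720zr
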