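import Pool.Agent.Lib.Pf720nn.NBlock
import Pool.Agent.Lib.Pf720zr.Hom
import Pool.Agent.Lib.Pf720zr.Trans
import Pool.Agent.Lib.Pf720zr.UnifA

/-!
# The reduction to zero entropy
-/

set_option autoImplicit false
set_option linter.unusedSectionVars false

open Finset MeasureTheory Filter Topology
open scoped ENNReal

namespace Pool.Agent.Lib.Pf720zr

open Pool.Agent.Lib.Pf720ae
open Pool.Agent.Lib.Pf720nn
open Pool.Agent.Lib.Pf720np (ZeroEnt joinEntropy gw gens pact pact_gw pact_mul pact_mp
  countable_closure)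
open Pool.Agent.Lib.Pf720pm (PolC RenC polC_bot)

/-- measure-preserving invertible maps -/
def MPT {X : Type} {mX : MeasurableSpace X} (μ : Measure X) {d : ℕ} (T : Fin d → Equiv.Perm X) :
    Prop :=
  ∀ i, Measurable (T i) ∧ Measurable (T i).symm ∧ MeasurePreserving (T i) μ μ

/-- the zero entropy systems `(Y, S)` with the same relations as `T` have the property `p` -/
def ForZero {X : Type} {d : ℕ} (T : Fin d → Equiv.Perm X)
    (p : (Y : Type) → (mY : MeasurableSpace Y) → @Measure Y mY → (Fin d → Equiv.Perm Y) → Prop) :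
    Prop :=
  ∀ (Y : Type) (mY : MeasurableSpace Y) (ν : Measure Y), IsProbabilityMeasure ν →
    ∀ S : Fin d → Equiv.Perm Y, MPT ν S → SameRel T S →
      (∀ A, MeasurableSet A → ZeroEnt ν (pact S) A) → p Y mY ν S

theorem limBd_zero {X : Type} {mX : MeasurableSpace X} {μ : Measure X} [IsProbabilityMeasure μ]
    {d : ℕ} (T : Fin d → Equiv.Perm X) (hT : MPT μ T)
    (hG : Group.IsNilpotent (Subgroup.closure (Set.range T))) {k : ℕ}
    (P : Fin d → MvPolynomial (Fin k) ℤ) (h : ForZero T fun _ _ ν S => LinC ν S P) :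
    LimBd μ fun (m : Fin k → ℕ) x => pact T (SP T P (m + 1)) x := by
  have hWmp : ∀ a, MeasurePreserving (pact T a) μ μ := pact_mp T hT
  rcases finite_or_infinite (Subgroup.closure (Set.range T)) with hfin | hinf
  · exact limBd_of_finite hWmp fun m => SP T P (m + 1)
  · have hcount : Countable (Subgroup.closure (Set.range T)) := countable_closure T
    have hfg : Group.FG (Subgroup.closure (Set.range T)) := Group.closure_finite_fg _
    obtain ⟨K, H, C, hts⟩ := exists_tileSeq _ hfg
    have hfi : ∀ j, (H j).FiniteIndex := hts.findex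
    have hinj := shiftHom_inj hts
    have hincinj : Function.Injective (sysInc T H) := by
      intro a b hab
      exact hinj (congrArg Subtype.val hab)
    have hS : MPT (sysM H) (sysT T H) := by
      intro i
      refine ⟨(shift_mp H (gens T i)).measurable, ?_, shift_mp H (gens T i)⟩
      have h1 : ((sysT T H i).symm : ((j : ℕ) → Zq (H j)) → _) = shift H (gens T i)⁻¹ := rfl
      rw [h1]
      exact (shift_mp H _).measurable
    have h1 : LinC (sysM H) (sysT T H) P := h _ _ (sysM H) inferInstance (sysT T H) hS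
      (sameRel_sysT T H hinj) fun A hA => zeroEnt_of_inj (sysInc T H) hincinj
        (fun g => pact_sysInc T H g) (sys_zeroEnt H hA)
    have h2 := limBd_of_linC (sysT T H) hS P h1
    have h3 : LimBd (sysM H) fun (m : Fin k → ℕ) => shift H (SP T P (m + 1)) := by
      have e : (fun (m : Fin k → ℕ) => shift H (SP T P (m + 1))) =
          fun (m : Fin k → ℕ) y => pact (sysT T H) (SP (sysT T H) P (m + 1)) y := by
        funext m
        exact (pact_SP_sysT T H P (m + 1)).symm
      rw [e]
      exact h2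
    have h4 := unifFin_of_unifBd H (fun m : Fin k → ℕ => SP T P (m + 1))
      (unif_of_limBd (fun m => (shift_mp H _).measurable) h3)
    exact limBd_of_unif (transference μ (W := pact T) (fun a b x => rfl) hWmp hts _ h4)

section pinsker

variable {X : Type} {mX : MeasurableSpace X} (μ : Measure X) {d : ℕ} (T : Fin d → Equiv.Perm X)

/-- the σ-algebra of the sets of zero entropy -/
@[reducible] def pin : MeasurableSpace X :=
  MeasurableSpace.generateFrom {A | MeasurableSet[mX] A ∧ ZeroEnt μ (pact T) A}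

lemma pin_le : pin μ T ≤ mX := MeasurableSpace.generateFrom_le fun _ hA => hA.1

variable {μ T}

lemma pin_meas (hT : MPT μ T) (g : Subgroup.closure (Set.range T)) :
    Measurable[pin μ T, pin μ T] (pact T g) := by
  rw [measurable_iff_comap_le]
  exact comap_zero (fun a b x => rfl) (fun a => (pact_mp T hT a).measurable) g

lemma pin_mpt (hT : MPT μ T) : @MPT X (pin μ T) (μ.trim (pin_le μ T)) d T := by
  intro i
  have h1 : Measurable[pin μ T, pin μ T] (T i) := pin_meas hT (gens T i)
  have h2 : Measurable[pin μ T, pin μ T] (T i).symm := pin_meas hT (gens T i)⁻¹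
  refine ⟨h1, h2, ?_⟩
  refine @MeasurePreserving.mk X X (pin μ T) (pin μ T) _ _ _ h1 ?_
  refine @Measure.ext X (pin μ T) _ _ fun s hs => ?_
  rw [@Measure.map_apply X X (pin μ T) (pin μ T) _ _ h1 s hs,
    trim_measurableSet_eq (pin_le μ T) (h1 hs), trim_measurableSet_eq (pin_le μ T) hs]
  exact (hT i).2.2.measure_preimage (pin_le μ T s hs).nullMeasurableSet

lemma pin_zero [IsProbabilityMeasure μ] (hT : MPT μ T)
    (hG : Group.IsNilpotent (Subgroup.closure (Set.range T))) {A : Set X}
    (hA : MeasurableSet[pin μ T] A) :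
    @ZeroEnt (Subgroup.closure (Set.range T)) X (pin μ T) (μ.trim (pin_le μ T)) (pact T) A := by
  have hcount : Countable (Subgroup.closure (Set.range T)) := countable_closure T
  have h1 : ZeroEnt μ (pact T) A := zeroEnt_of_generateFrom μ (fun x => rfl) (fun a b x => rfl)
    (pact_mp T hT) hA
  intro ε hε
  obtain ⟨F, hF, hle⟩ := h1 ε hε
  refine ⟨F, hF, le_trans (le_of_eq ?_) hle⟩
  unfold joinEntropy
  refine Finset.sum_congr rfl fun ω hω => ?_
  congr 1
  unfold Measure.real
  congr 1
  refine trim_measurableSet_eq (pin_le μ T) ?_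
  have h2 : {x | ∀ g ∈ F, pact T g x ∈ A ↔ g ∈ ω} =
      ⋂ g ∈ F, {x | pact T g x ∈ A ↔ g ∈ ω} := by
    ext x
    simp only [Set.mem_setOf_eq, Set.mem_iInter]
  rw [h2]
  refine Finset.measurableSet_biInter _ fun g hg => ?_
  have h3 : MeasurableSet[pin μ T] {x | pact T g x ∈ A} := pin_meas hT g hA
  by_cases hgω : g ∈ ω
  · have h4 : {x | pact T g x ∈ A ↔ g ∈ ω} = {x | pact T g x ∈ A} := by
      ext x
      simp [hgω]
    rw [h4]
    exact h3
  · have h4 : {x | pact T g x ∈ A ↔ g ∈ ω} = {x | pact T g x ∈ A}ᶜ := by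
      ext x
      simp [hgω]
    rw [h4]
    exact @MeasurableSet.compl X _ (pin μ T) h3

/-- convergence on the factor of zero entropy -/
lemma polC_pin [IsProbabilityMeasure μ] (hT : MPT μ T) (K : Set ℕ)
    (Q : (k : ℕ) → Set (Fin d → MvPolynomial (Fin k) ℤ))
    (h : @PolC X (pin μ T) (μ.trim (pin_le μ T)) d T K Q (pin μ T)) :
    PolC μ T K Q (pin μ T) := by
  intro k hk n P f hPQ hf
  choose hf1 g hg hfg using hf
  have hgm : ∀ j, MemLp (g j) ⊤ μ := fun j => (memLp_congr_ae (hfg j)).1 (hf1 j)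
  have h1 := h k hk n P g hPQ fun j => ⟨?_, (hg j).aestronglyMeasurable⟩
  · have h2 : ∀ᵐ x ∂μ, ∀ j, ∀ m : Fin k → ℕ, f j (pw T (fun i => MvPolynomial.eval
        (fun l => (m l : ℤ)) (P j i)) x) = g j (pw T (fun i => MvPolynomial.eval
        (fun l => (m l : ℤ)) (P j i)) x) := by
      rw [ae_all_iff]
      intro j
      rw [ae_all_iff]
      intro m
      exact (mp_pw T hT _).quasiMeasurePreserving.ae_eq_comp (hfg j)
    filter_upwards [ae_of_ae_trim (pin_le μ T) h1, h2] with x hx hx2
    obtain ⟨L, hL⟩ := hx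
    refine ⟨L, hL.congr fun M => ?_⟩
    congr 1
    exact Finset.sum_congr rfl fun m _ => Finset.prod_congr rfl fun j _ => (hx2 j m).symm
  · refine ⟨(hg j).aestronglyMeasurable, ?_⟩
    rw [eLpNorm_trim (pin_le μ T) (hg j)]
    exact (hgm j).2

end pinsker

/-- the main theorem: the linear averages of the non-separated tuples converge for `T` or for all
zero entropy systems with the same relations -/
theorem zr_iff {X : Type} (𝒩 : MeasurableSpace X) {mX : MeasurableSpace X} {μ : Measure X}
    [IsProbabilityMeasure μ] {d : ℕ} (T : Fin d → Equiv.Perm X) (hT : MPT μ T)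
    (hG : Group.IsNilpotent (Subgroup.closure (Set.range T)))
    (h𝒩 : ∀ A : Set X, MeasurableSet A → ZeroEnt μ (pact T) A →
      ∃ B, MeasurableSet[𝒩] B ∧ A =ᵐ[μ] B)
    (K : Set ℕ) (hK : K = {1} ∨ K = Set.univ)
    (Q : (k : ℕ) → Set (Fin d → MvPolynomial (Fin k) ℤ)) (hQ1 : RenC Q)
    (hQ2 : (∀ g : Subgroup.closure (Set.range T), ∀ n : ℕ, 0 < n → g ^ n = 1 → g = 1) ∨ SubC Q)
    (hlin : ∀ k ∈ K, ∀ P ∈ Q k, Sep T P ∨ LinC μ T P ∨ ForZero T fun _ _ ν S => LinC ν S P) :
    PolC μ T K Q mX ↔ PolC μ T K Q 𝒩 := by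
  refine nil_reduction 𝒩 T hT hG h𝒩 K hK Q hQ1 hQ2 fun k hk P hP => ?_
  rcases hlin k hk P hP with h | h | h
  · exact limBd_of_maxBd (fun m => (pact_mp T hT _).measurable) (maxBd_sep T hT P h)
  · exact limBd_of_linC T hT P h
  · exact limBd_zero T hT hG P h

/-- zero entropy suffices -/
theorem zr_main {X : Type} {mX : MeasurableSpace X} {μ : Measure X}
    [IsProbabilityMeasure μ] {d : ℕ} (T : Fin d → Equiv.Perm X) (hT : MPT μ T)
    (hG : Group.IsNilpotent (Subgroup.closure (Set.range T)))
    (K : Set ℕ) (hK : K = {1} ∨ K = Set.univ)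
    (Q : (k : ℕ) → Set (Fin d → MvPolynomial (Fin k) ℤ)) (hQ1 : RenC Q)
    (hQ2 : (∀ g : Subgroup.closure (Set.range T), ∀ n : ℕ, 0 < n → g ^ n = 1 → g = 1) ∨ SubC Q)
    (h : ForZero T fun _ mY ν S => @PolC _ mY ν d S K Q mY) : PolC μ T K Q mX := by
  rw [zr_iff (pin μ T) T hT hG (fun A hA hA0 => ⟨A, MeasurableSpace.measurableSet_generateFrom
    ⟨hA, hA0⟩, ae_eq_refl _⟩) K hK Q hQ1 hQ2 fun k hk P hP => Or.inr (Or.inr ?_)]
  · refine polC_pin hT K Q (h X (pin μ T) (μ.trim (pin_le μ T)) ?_ T (pin_mpt hT) ?_ ?_)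
    · refine @IsProbabilityMeasure.mk X (pin μ T) _ ?_
      rw [trim_measurableSet_eq (pin_le μ T) MeasurableSet.univ]
      exact measure_univ
    · exact fun v => Iff.rfl
    · exact fun A hA => pin_zero hT hG hA
  · intro Y mY ν hν S hS hrel hz
    exact linC_of_polC S K Q (h Y mY ν hν S hS hrel hz) hk hP

/-- the groups are isomorphic -/
theorem nilpotent_of_sameRel {X Y : Type} {d : ℕ} {T : Fin d → Equiv.Perm X}
    {S : Fin d → Equiv.Perm Y} (h : SameRel T S)
    (hG : Group.IsNilpotent (Subgroup.closure (Set.range T))) :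
    Group.IsNilpotent (Subgroup.closure (Set.range S)) := by
  have hrel : ∀ v w : FreeGroup (Fin d), FreeGroup.lift T v = FreeGroup.lift T w →
      FreeGroup.lift S v = FreeGroup.lift S w := by
    intro v w hvw
    have h1 : FreeGroup.lift T (v * w⁻¹) = 1 := by
      rw [map_mul, map_inv, hvw, mul_inv_cancel]
    have h2 := (h _).1 h1
    rw [map_mul, map_inv] at h2
    exact mul_inv_eq_one.1 h2
  choose lf hlf using fun g : Subgroup.closure (Set.range T) => exists_lift T g
  have hlf' : ∀ g, FreeGroup.lift T (lf g) = (g : Equiv.Perm X) := by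
    intro g
    rw [← lift_gens, hlf]
  set φ : Subgroup.closure (Set.range T) →* Subgroup.closure (Set.range S) :=
    MonoidHom.mk' (fun g => FreeGroup.lift (gens S) (lf g)) (by
      intro a b
      refine Subtype.ext ?_
      rw [Subgroup.coe_mul, lift_gens, lift_gens, lift_gens, ← map_mul]
      refine hrel _ _ ?_
      rw [map_mul, hlf', hlf', hlf', Subgroup.coe_mul]) with hφ
  have hsurj : Function.Surjective φ := by
    intro b
    obtain ⟨v, rfl⟩ := exists_lift S b
    refine ⟨FreeGroup.lift (gens T) v, ?_⟩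
    refine Subtype.ext ?_
    show ((FreeGroup.lift (gens S) (lf _) : Subgroup.closure (Set.range S)) : Equiv.Perm Y) = _
    rw [lift_gens, lift_gens]
    refine hrel _ _ ?_
    rw [hlf', lift_gens]
  exact Group.nilpotent_of_surjective φ hsurj

end Pool.Agent.Lib.Pf720zr
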