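import Pool.Agent.Lib.Pf720zr.Defs

/-!
# Finite subsets of nilpotent groups have polynomial growth

`gr_peel`: let `R' = {ρ r j : r ∈ R, j < c}`. (1) For `r ∈ R`, `j`, `b : ℕ` the element
`(x ^ b)⁻¹ * ρ r j * x ^ b` is the product of a list over `R'` of length at most `(b + 1) ^ (c - j)`
(induction on `b`, for all `j`: `x⁻¹ * ρ r j * x = ρ r j * ρ r (j + 1)`, so
`(x ^ (b + 1))⁻¹ * ρ r j * x ^ (b + 1) = ((x ^ b)⁻¹ * ρ r j * x ^ b) * ((x ^ b)⁻¹ * ρ r (j + 1) * x ^ b)`;
if `j ≥ c` then `ρ r j = 1` and the list is empty or of length `≤ 1 = (b + 1) ^ 0`; for `e = c - j ≥ 1`,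
`(b + 1) ^ e + (b + 1) ^ (e - 1) ≤ (b + 2) ^ e`). So all of them have length `≤ (b + 1) ^ c`.
(2) A list over `insert x R` of length `n` has product `x ^ a * l'.prod` with `a ≤ n` and `l'` a list
over `R'` of length at most `n * (n + 1) ^ c`: stronger, for induction on the list: for all `b` with
`length + b ≤ N`, `(x ^ b)⁻¹ * l.prod * x ^ b`... (or by induction adding letters at the right end:
`x ^ a * l'.prod * x = x ^ (a + 1) * (x⁻¹ * l'.prod * x)`; simplest is the induction on `l` from the left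
with the statement `∃ a ≤ length l, ∃ l', l.prod = x ^ a * l'.prod`, where for `l = r :: t`,
`r * (x ^ a * l'.prod) = x ^ a * ((x ^ a)⁻¹ * r * x ^ a) * l'.prod`, and (1) gives the list of
`(x ^ a)⁻¹ * r * x ^ a`; for `l = x :: t` increase `a`). (3) If `Gr R'` with `C, D`, then the set
`{x ^ a * g : a ≤ n, g ∈ B (n * (n + 1) ^ c)}` has at most
`(n + 1) * C * (n * (n + 1) ^ c + 1) ^ D ≤ C * (n + 1) ^ (1 + (c + 1) * D)` elements.

`gr_of_lower`: downward induction on `i`: every finite subset of `lowerCentralSeries G i` is of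
polynomial growth; `lowerCentralSeries G n = ⊥` for `n` large (`Gr {1}` or `Gr ∅`, and `Gr` is monotone).
Step: prove for every list/finset `S₁ ⊆ lowerCentralSeries G i` and every finite
`S₂ ⊆ lowerCentralSeries G (i + 1)` that `Gr (S₁ ∪ S₂)`, by induction on `S₁` (for all `S₂`): if
`S₁ = insert x S₁'`, apply `gr_peel` with `R = S₁' ∪ S₂`, `ρ r 0 = r`, `ρ r (j + 1) = (ρ r j)⁻¹ * x⁻¹ * ρ r j * x`
(a commutator: `ρ r j ∈ lowerCentralSeries G (i + j)` for all `r ∈ R`, and it is `1` for `j ≥ c` where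
`lowerCentralSeries G c = ⊥`), so `R' ⊆ S₁' ∪ (finite subset of lowerCentralSeries G (i + 1))`.
-/

set_option autoImplicit false

open scoped commutatorElement

namespace Pool.Agent.Lib.Pf720zr

lemma Gr.mono {G : Type} [Group G] {S S' : Set G} (h : Gr S') (hS : S ⊆ S') : Gr S := by
  obtain ⟨C, D, h⟩ := h
  refine ⟨C, D, fun n => ?_⟩
  obtain ⟨B, hB, hB'⟩ := h n
  exact ⟨B, hB, fun l hl hlS => hB' l hl fun x hx => hS (hlS x hx)⟩

lemma conj_word {G : Type} [Group G] (x : G) (R : Finset G) (c : ℕ) (ρ : G → ℕ → G)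
    (h1 : ∀ r ∈ R, ∀ j, ρ r (j + 1) = (ρ r j)⁻¹ * (x⁻¹ * ρ r j * x))
    (hc : ∀ r ∈ R, ∀ j, c ≤ j → ρ r j = 1) (r : G) (hr : r ∈ R) (b : ℕ) :
    ∀ j : ℕ, ∃ l : List G, l.length ≤ (b + 1) ^ (c - j) ∧
      (∀ y ∈ l, ∃ r ∈ R, ∃ j < c, y = ρ r j) ∧ l.prod = (x ^ b)⁻¹ * ρ r j * x ^ b := by
  induction b with
  | zero =>
    intro j
    rcases Nat.lt_or_ge j c with hj | hj
    · refine ⟨[ρ r j], by simp, ?_, by simp⟩
      intro y hy
      rw [List.mem_singleton] at hy
      exact ⟨r, hr, j, hj, hy⟩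
    · refine ⟨[], by simp, by simp, ?_⟩
      rw [hc r hr j hj]
      simp
  | succ b ih =>
    intro j
    rcases Nat.lt_or_ge j c with hj | hj
    · obtain ⟨l1, hl1, hm1, hp1⟩ := ih j
      obtain ⟨l2, hl2, hm2, hp2⟩ := ih (j + 1)
      refine ⟨l1 ++ l2, ?_, ?_, ?_⟩
      · rw [List.length_append]
        obtain ⟨e, he⟩ : ∃ e, c - j = e + 1 := ⟨c - j - 1, by omega⟩
        have he2 : c - (j + 1) = e := by omega
        rw [he] at hl1 ⊢
        rw [he2] at hl2
        have h3 : (b + 1) ^ e ≤ (b + 1 + 1) ^ e := Nat.pow_le_pow_left (by omega) e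
        calc l1.length + l2.length ≤ (b + 1) ^ (e + 1) + (b + 1) ^ e := add_le_add hl1 hl2
          _ = (b + 1) ^ e * (b + 1 + 1) := by ring
          _ ≤ (b + 1 + 1) ^ e * (b + 1 + 1) := Nat.mul_le_mul_right _ h3
          _ = (b + 1 + 1) ^ (e + 1) := by ring
      · intro y hy
        rcases List.mem_append.1 hy with h | h
        · exact hm1 y h
        · exact hm2 y h
      · rw [List.prod_append, hp1, hp2, h1 r hr j, pow_succ' x b]
        group
    · refine ⟨[], by simp, by simp, ?_⟩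
      rw [hc r hr j hj]
      simp

lemma word_peel {G : Type} [Group G] (x : G) (R : Finset G) (c : ℕ) (ρ : G → ℕ → G)
    (h0 : ∀ r ∈ R, ρ r 0 = r) (h1 : ∀ r ∈ R, ∀ j, ρ r (j + 1) = (ρ r j)⁻¹ * (x⁻¹ * ρ r j * x))
    (hc : ∀ r ∈ R, ∀ j, c ≤ j → ρ r j = 1) (n : ℕ) (l : List G) :
    l.length ≤ n → (∀ y ∈ l, y ∈ insert x (R : Set G)) →
      ∃ a ≤ l.length, ∃ l' : List G, l'.length ≤ l.length * (n + 1) ^ c ∧
        (∀ y ∈ l', ∃ r ∈ R, ∃ j < c, y = ρ r j) ∧ l.prod = x ^ a * l'.prod := by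
  induction l with
  | nil =>
    intro _ _
    exact ⟨0, le_rfl, [], by simp, by simp, by simp⟩
  | cons y t ih =>
    intro hlen hmem
    rw [List.length_cons] at hlen
    obtain ⟨a, ha, l', hl', hm', hp'⟩ := ih (by omega)
      fun z hz => hmem z (List.mem_cons_of_mem _ hz)
    rcases hmem y List.mem_cons_self with hy | hy
    · refine ⟨a + 1, by rw [List.length_cons]; omega, l', ?_, hm', ?_⟩
      · rw [List.length_cons]
        exact hl'.trans (Nat.mul_le_mul_right _ (by omega))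
      · rw [List.prod_cons, hp', hy, pow_succ', mul_assoc]
    · obtain ⟨l'', hl'', hm'', hp''⟩ := conj_word x R c ρ h1 hc y hy a 0
      refine ⟨a, by rw [List.length_cons]; omega, l'' ++ l', ?_, ?_, ?_⟩
      · rw [List.length_append, List.length_cons]
        have h2 : (a + 1) ^ (c - 0) ≤ (n + 1) ^ c := by
          rw [Nat.sub_zero]
          exact Nat.pow_le_pow_left (by omega) c
        calc l''.length + l'.length ≤ (n + 1) ^ c + t.length * (n + 1) ^ c :=
              add_le_add (hl''.trans h2) hl'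
          _ = (t.length + 1) * (n + 1) ^ c := by ring
      · intro z hz
        rcases List.mem_append.1 hz with h | h
        · exact hm'' z h
        · exact hm' z h
      · rw [List.prod_cons, List.prod_append, hp'', hp', h0 y hy]
        group

theorem gr_peel {G : Type} [Group G] (x : G) (R : Finset G) (c : ℕ) (ρ : G → ℕ → G)
    (h0 : ∀ r ∈ R, ρ r 0 = r) (h1 : ∀ r ∈ R, ∀ j, ρ r (j + 1) = (ρ r j)⁻¹ * (x⁻¹ * ρ r j * x))
    (hc : ∀ r ∈ R, ∀ j, c ≤ j → ρ r j = 1)
    (h : Gr {g : G | ∃ r ∈ R, ∃ j < c, g = ρ r j}) : Gr (insert x (R : Set G)) := by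
  classical
  obtain ⟨C, D, h⟩ := h
  refine ⟨C, 1 + (c + 1) * D, fun n => ?_⟩
  obtain ⟨B, hB, hB'⟩ := h (n * (n + 1) ^ c)
  refine ⟨(Finset.range (n + 1) ×ˢ B).image fun q => x ^ q.1 * q.2, ?_, ?_⟩
  · refine Finset.card_image_le.trans ?_
    rw [Finset.card_product, Finset.card_range]
    have h3 : n * (n + 1) ^ c + 1 ≤ (n + 1) ^ (c + 1) := by
      have : 1 ≤ (n + 1) ^ c := Nat.one_le_pow _ _ (by omega)
      calc n * (n + 1) ^ c + 1 ≤ n * (n + 1) ^ c + (n + 1) ^ c := by omega
        _ = (n + 1) ^ (c + 1) := by ring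
    calc (n + 1) * B.card ≤ (n + 1) * (C * (n * (n + 1) ^ c + 1) ^ D) :=
          Nat.mul_le_mul_left _ hB
      _ ≤ (n + 1) * (C * ((n + 1) ^ (c + 1)) ^ D) :=
          Nat.mul_le_mul_left _ (Nat.mul_le_mul_left _ (Nat.pow_le_pow_left h3 D))
      _ = C * (n + 1) ^ (1 + (c + 1) * D) := by
          rw [← pow_mul, pow_add, pow_one]
          ring
  · intro l hl hmem
    obtain ⟨a, ha, l', hl', hm', hp'⟩ := word_peel x R c ρ h0 h1 hc n l hl hmem
    refine Finset.mem_image.2 ⟨(a, l'.prod), Finset.mem_product.2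
      ⟨Finset.mem_range.2 (by omega), hB' l' (hl'.trans (Nat.mul_le_mul_right _ hl)) hm'⟩,
      hp'.symm⟩

theorem growth {G : Type} [Group G] [Group.IsNilpotent G] (S : Finset G) : Gr (S : Set G) := by
  classical
  obtain ⟨c, hc⟩ := Subgroup.nilpotent_iff_lowerCentralSeries.1
    (inferInstance : Group.IsNilpotent G)
  have hstep : ∀ (a : ℕ) (x y : G), y ∈ Subgroup.lowerCentralSeries (⊤ : Subgroup G) a →
      y⁻¹ * (x⁻¹ * y * x) ∈ Subgroup.lowerCentralSeries (⊤ : Subgroup G) (a + 1) := by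
    intro a x y hy
    have h1 : ⁅y⁻¹, x⁻¹⁆ ∈ ⁅Subgroup.lowerCentralSeries (⊤ : Subgroup G) a, (⊤ : Subgroup G)⁆ :=
      Subgroup.commutator_mem_commutator (Subgroup.inv_mem _ hy) (Subgroup.mem_top _)
    have h2 : ⁅y⁻¹, x⁻¹⁆ = y⁻¹ * (x⁻¹ * y * x) := by
      rw [commutatorElement_def]
      group
    rw [h2] at h1
    exact h1
  set ρ : G → G → ℕ → G := fun x r j => (fun y => y⁻¹ * (x⁻¹ * y * x))^[j] r with hρ
  have hρs : ∀ x r j, ρ x r (j + 1) = (ρ x r j)⁻¹ * (x⁻¹ * ρ x r j * x) := by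
    intro x r j
    simp only [hρ]
    rw [Function.iterate_succ_apply']
  have hρm : ∀ (x r : G) (a : ℕ), r ∈ Subgroup.lowerCentralSeries (⊤ : Subgroup G) a → ∀ j,
      ρ x r j ∈ Subgroup.lowerCentralSeries (⊤ : Subgroup G) (a + j) := by
    intro x r a hr j
    induction j with
    | zero => exact hr
    | succ j ih =>
      rw [hρs]
      exact hstep _ _ _ ih
  have hanti : ∀ a b : ℕ, a ≤ b → ∀ y ∈ Subgroup.lowerCentralSeries (⊤ : Subgroup G) b,
      y ∈ Subgroup.lowerCentralSeries (⊤ : Subgroup G) a := fun a b hab y hy =>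
    Subgroup.lowerCentralSeries_antitone ⊤ hab hy
  have hρ1 : ∀ (x r : G) (j : ℕ), c ≤ j → ρ x r j = 1 := by
    intro x r j hj
    have h1 := hρm x r 0 (by simp) j
    rw [zero_add] at h1
    have h2 := hanti c j hj _ h1
    rw [hc] at h2
    exact h2
  have main : ∀ i ≤ c, ∀ S₂ : Finset G, (∀ s ∈ S₂, s ∈ Subgroup.lowerCentralSeries (⊤ : Subgroup G) (c - i)) →
      Gr (S₂ : Set G) := by
    intro i
    induction i with
    | zero =>
      intro _ S₂ hS₂
      refine ⟨1, 0, fun n => ⟨{1}, by simp, fun l _ hl => ?_⟩⟩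
      rw [Finset.mem_singleton]
      refine List.prod_eq_one fun y hy => ?_
      have h1 := hS₂ y (hl y hy)
      rw [Nat.sub_zero, hc] at h1
      exact h1
    | succ i ih =>
      intro hi S₂ hS₂
      have ea : c - i = (c - (i + 1)) + 1 := by omega
      have inner : ∀ S₁ : Finset G, (∀ s ∈ S₁, s ∈ Subgroup.lowerCentralSeries (⊤ : Subgroup G) (c - (i + 1))) →
          ∀ S₂ : Finset G, (∀ s ∈ S₂, s ∈ Subgroup.lowerCentralSeries (⊤ : Subgroup G) (c - i)) →
            Gr ((S₁ ∪ S₂ : Finset G) : Set G) := by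
        intro S₁
        induction S₁ using Finset.induction_on with
        | empty =>
          intro _ S₂ hS₂
          rw [Finset.empty_union]
          exact ih (by omega) S₂ hS₂
        | insert x S₁ hx ihS =>
          intro hS₁ S₂ hS₂
          have hx1 := hS₁ x (Finset.mem_insert_self _ _)
          have hS₁' : ∀ s ∈ S₁, s ∈ Subgroup.lowerCentralSeries (⊤ : Subgroup G) (c - (i + 1)) := fun s hs =>
            hS₁ s (Finset.mem_insert_of_mem hs)
          have hR : ∀ r ∈ S₁ ∪ S₂, r ∈ Subgroup.lowerCentralSeries (⊤ : Subgroup G) (c - (i + 1)) := by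
            intro r hr
            rcases Finset.mem_union.1 hr with h | h
            · exact hS₁' r h
            · exact hanti _ _ (by omega) r (hS₂ r h)
          set S₃ : Finset G := S₂ ∪ ((S₁ ∪ S₂) ×ˢ Finset.range c).image
            (fun q => ρ x q.1 (q.2 + 1)) with hS₃
          have hS₃m : ∀ s ∈ S₃, s ∈ Subgroup.lowerCentralSeries (⊤ : Subgroup G) (c - i) := by
            intro s hs
            rcases Finset.mem_union.1 hs with h | h
            · exact hS₂ s h
            · obtain ⟨q, hq, rfl⟩ := Finset.mem_image.1 h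
              rw [Finset.mem_product] at hq
              exact hanti _ _ (by omega) _ (hρm x q.1 _ (hR q.1 hq.1) (q.2 + 1))
          have h3 := ihS hS₁' S₃ hS₃m
          have h4 := gr_peel x (S₁ ∪ S₂) c (ρ x) (fun r _ => rfl) (fun r _ j => hρs x r j)
            (fun r _ j hj => hρ1 x r j hj) (h3.mono ?_)
          · refine h4.mono fun y hy => ?_
            rw [Finset.mem_coe, Finset.insert_union, Finset.mem_insert] at hy
            exact hy
          · rintro _ ⟨r, hr, j, hj, rfl⟩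
            rw [Finset.mem_coe]
            rcases Nat.eq_zero_or_pos j with rfl | hj0
            · rcases Finset.mem_union.1 hr with h | h
              · exact Finset.mem_union_left _ h
              · exact Finset.mem_union_right _ (Finset.mem_union_left _ h)
            · refine Finset.mem_union_right _ (Finset.mem_union_right _ ?_)
              refine Finset.mem_image.2 ⟨(r, j - 1), Finset.mem_product.2
                ⟨hr, Finset.mem_range.2 (by omega)⟩, ?_⟩
              show ρ x r (j - 1 + 1) = ρ x r j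
              rw [Nat.sub_add_cancel hj0]
      have h5 := inner S₂ hS₂ ∅ (by simp)
      rwa [Finset.union_empty] at h5
  refine main c le_rfl S fun s _ => ?_
  rw [Nat.sub_self]
  simp

end Pool.Agent.Lib.Pf720zr
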