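import Pool.Agent.Lib.Pf720zr.UDefs

/-!
# The product of the finite quotients

`Zq L` is `G ⧸ L` with the discrete σ-algebra, `unifM L` its uniform probability measure, `sysM H` the
product of the `unifM (H j)`, on which `G` acts by `shift g y = fun j => g • y j`.
-/

set_option autoImplicit false
set_option linter.unusedSectionVars false

open Finset MeasureTheory Filter Topology
open scoped ENNReal

namespace Pool.Agent.Lib.Pf720zr

open Pool.Agent.Lib.Pf720ae

variable {G : Type} [Group G]

/-- the quotient as a discrete space -/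
def Zq (L : Subgroup G) : Type := G ⧸ L

instance (L : Subgroup G) : MeasurableSpace (Zq L) := ⊤

instance (L : Subgroup G) : Nonempty (Zq L) := ⟨((1 : G) : G ⧸ L)⟩

instance (L : Subgroup G) : MulAction G (Zq L) := inferInstanceAs (MulAction G (G ⧸ L))

instance (L : Subgroup G) [h : L.FiniteIndex] : Finite (Zq L) :=
  inferInstanceAs (Finite (G ⧸ L))

/-- the uniform measure -/
noncomputable def unifM (L : Subgroup G) : Measure (Zq L) :=
  (Nat.card (Zq L) : ℝ≥0∞)⁻¹ • Measure.count

instance (L : Subgroup G) [h : L.FiniteIndex] : IsProbabilityMeasure (unifM L) := by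
  refine ⟨?_⟩
  have h1 : (Measure.count : Measure (Zq L)) Set.univ = (Nat.card (Zq L) : ℝ≥0∞) := by
    have := Fintype.ofFinite (Zq L)
    rw [Measure.count_apply MeasurableSet.univ, Set.encard_univ, ENat.card_eq_coe_fintype_card,
      Nat.card_eq_fintype_card]
    rfl
  have h2 : (Nat.card (Zq L) : ℝ≥0∞) ≠ 0 := by
    rw [Nat.cast_ne_zero]
    exact Nat.card_pos.ne'
  unfold unifM
  rw [Measure.smul_apply, h1, smul_eq_mul, ENNReal.inv_mul_cancel h2 (ENNReal.natCast_ne_top _)]

/-- the product system -/
noncomputable def sysM (H : ℕ → Subgroup G) [∀ j, (H j).FiniteIndex] :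
    Measure ((j : ℕ) → Zq (H j)) :=
  Measure.infinitePi fun j => unifM (H j)

noncomputable instance (H : ℕ → Subgroup G) [∀ j, (H j).FiniteIndex] :
    IsProbabilityMeasure (sysM H) := by
  unfold sysM
  infer_instance

/-- the action -/
def shift (H : ℕ → Subgroup G) (g : G) (y : (j : ℕ) → Zq (H j)) : (j : ℕ) → Zq (H j) :=
  fun j => g • y j

end Pool.Agent.Lib.Pf720zr
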