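import Pool.Agent.Lib.Pf720zr.Sys

/-!
# The product system: invariance of the measure and transfer to the factors

`shift_mp`: `Measure.infinitePi_map_pi` and invariance of `unifM` under the bijection `y ↦ g • y`
(`Measure.count` is invariant under bijections).

`unifFin_of_unifBd`: for `φ` on `G ⧸ H j` put `g y = φ (y j)`; `∫⁻ ofReal (g y) = ∫⁻ ofReal (φ y) ∂(unifM (H j))
= (card)⁻¹ * ∑ y, ofReal (φ y)` (`measurePreserving_eval_infinitePi`), and
`Bad (fun m => shift H (w m)) N ε g` is the preimage of `Bad (fun m y => w m • y) N ε φ` under `y ↦ y j`, so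
its measure is `ncard * (card)⁻¹`.
-/

set_option autoImplicit false
set_option linter.unusedSectionVars false

open Finset MeasureTheory Filter Topology
open scoped ENNReal

namespace Pool.Agent.Lib.Pf720zr

open Pool.Agent.Lib.Pf720ae

variable {G : Type} [Group G]

lemma mset_Zq {L : Subgroup G} (s : Set (Zq L)) : MeasurableSet s := trivial

lemma meas_Zq {L : Subgroup G} {β : Type*} [MeasurableSpace β] (f : Zq L → β) : Measurable f :=
  fun _ _ => trivial

lemma unifM_smul (L : Subgroup G) (g : G) : (unifM L).map (fun y => g • y) = unifM L := by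
  unfold unifM
  rw [Measure.map_smul]
  congr 1
  have h := (MulAction.toPerm g : Equiv.Perm (Zq L))
  refine Measure.ext fun s _ => ?_
  rw [Measure.map_apply (meas_Zq _) (mset_Zq s), Measure.count_apply (mset_Zq _),
    Measure.count_apply (mset_Zq _)]
  congr 1
  have h1 : (fun y : Zq L => g • y) ⁻¹' s = (MulAction.toPerm g : Equiv.Perm (Zq L)) ⁻¹' s := rfl
  rw [h1, Set.encard_preimage_of_bijective (Equiv.bijective _)]

theorem shift_mp (H : ℕ → Subgroup G) [∀ j, (H j).FiniteIndex] (g : G) :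
    MeasurePreserving (shift H g) (sysM H) (sysM H) := by
  have hm : Measurable (shift H g) := by
    rw [measurable_pi_iff]
    intro j
    exact (meas_Zq fun y => g • y).comp (measurable_pi_apply j)
  refine ⟨hm, ?_⟩
  unfold sysM
  have h1 := Measure.infinitePi_map_pi (μ := fun j => unifM (H j))
    (f := fun j (y : Zq (H j)) => g • y) (fun j => meas_Zq _)
  have h2 : (fun j => (unifM (H j)).map fun y => g • y) = fun j => unifM (H j) :=
    funext fun j => unifM_smul (H j) g
  have h3 : (Measure.infinitePi fun j => unifM (H j)).map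
      (fun (y : (j : ℕ) → Zq (H j)) j => g • y j) = Measure.infinitePi fun j => unifM (H j) := by
    rw [h1]
    simp only [unifM_smul]
  exact h3

theorem unifFin_of_unifBd {κ : Type} [Fintype κ] [DecidableEq κ] (H : ℕ → Subgroup G)
    [∀ j, (H j).FiniteIndex] (w : (κ → ℕ) → G)
    (h : UnifBd (sysM H) fun m => shift H (w m)) : UnifFin H w := by
  intro ε hε
  obtain ⟨δ, hδ, N, hN⟩ := h ε hε
  refine ⟨δ, hδ, N, fun j φ h0 h1 hs => ?_⟩
  have hfin : Fintype (G ⧸ H j) := Fintype.ofFinite _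
  let hfinZ : Fintype (Zq (H j)) := hfin
  have hcard : Nat.card (Zq (H j)) = Nat.card (G ⧸ H j) := rfl
  have hpos : 0 < Nat.card (G ⧸ H j) := Nat.card_pos
  have hposR : (0 : ℝ) < Nat.card (G ⧸ H j) := by exact_mod_cast hpos
  set ψ : Zq (H j) → ℝ := φ with hψ
  have hmp : MeasurePreserving (fun y : (j : ℕ) → Zq (H j) => y j) (sysM H) (unifM (H j)) :=
    measurePreserving_eval_infinitePi (fun j => unifM (H j)) j
  have hint : ∫⁻ y, ENNReal.ofReal (ψ (y j)) ∂(sysM H) ≤ ENNReal.ofReal δ := by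
    rw [hmp.lintegral_comp (meas_Zq fun y => ENNReal.ofReal (ψ y))]
    unfold unifM
    have h9 : ∑ y, ENNReal.ofReal (ψ y) = ENNReal.ofReal (∑ y, ψ y) :=
      (ENNReal.ofReal_sum_of_nonneg fun y _ => h0 y).symm
    rw [lintegral_smul_measure, lintegral_count, tsum_fintype, h9, hcard]
    rw [finsum_eq_sum_of_fintype] at hs
    have h2 : ENNReal.ofReal (∑ y, ψ y) ≤ ENNReal.ofReal δ * Nat.card (G ⧸ H j) := by
      rw [← ENNReal.ofReal_natCast, ← ENNReal.ofReal_mul hδ.le]
      have hs' : (∑ y : Zq (H j), ψ y) ≤ δ * Nat.card (G ⧸ H j) := hs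
      exact ENNReal.ofReal_le_ofReal hs'
    rw [smul_eq_mul]
    calc ((Nat.card (G ⧸ H j) : ℝ≥0∞))⁻¹ * ENNReal.ofReal (∑ y, ψ y)
        ≤ (Nat.card (G ⧸ H j) : ℝ≥0∞)⁻¹ * (ENNReal.ofReal δ * Nat.card (G ⧸ H j)) :=
          mul_le_mul_right h2 _
      _ = ENNReal.ofReal δ * ((Nat.card (G ⧸ H j) : ℝ≥0∞)⁻¹ * Nat.card (G ⧸ H j)) := by ring
      _ = ENNReal.ofReal δ := by
          rw [ENNReal.inv_mul_cancel (by exact_mod_cast hpos.ne') (ENNReal.natCast_ne_top _),
            mul_one]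
  have hbad := hN (fun y => ψ (y j)) ((meas_Zq ψ).comp (measurable_pi_apply j))
    (fun y => h0 _) (fun y => h1 _) hint
  have e1 : Bad (fun m => shift H (w m)) N ε (fun y => ψ (y j)) =
      (fun y : (j : ℕ) → Zq (H j) => y j) ⁻¹' Bad (fun m y => w m • y) N ε φ := rfl
  rw [e1, hmp.measure_preimage (mset_Zq (L := H j) _).nullMeasurableSet] at hbad
  unfold unifM at hbad
  rw [Measure.smul_apply, Measure.count_apply (mset_Zq (L := H j) _), smul_eq_mul, hcard] at hbad
  have e2 : ((Bad (fun m (y : G ⧸ H j) => w m • y) N ε φ).encard : ℝ≥0∞) =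
      ((Bad (fun m (y : G ⧸ H j) => w m • y) N ε φ).ncard : ℝ≥0∞) := by
    rw [← (Set.toFinite _).cast_ncard_eq]
    rfl
  have h3 : ((Bad (fun m (y : G ⧸ H j) => w m • y) N ε φ).ncard : ℝ≥0∞) ≤
      ENNReal.ofReal ε * Nat.card (G ⧸ H j) := by
    rw [← e2]
    have h4 := mul_le_mul_right hbad (Nat.card (G ⧸ H j) : ℝ≥0∞)
    rw [← mul_assoc, ENNReal.mul_inv_cancel (by exact_mod_cast hpos.ne')
      (ENNReal.natCast_ne_top _), one_mul, mul_comm _ (ENNReal.ofReal ε)] at h4
    exact h4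
  rw [← ENNReal.ofReal_natCast, ← ENNReal.ofReal_natCast, ← ENNReal.ofReal_mul hε.le] at h3
  exact (ENNReal.ofReal_le_ofReal_iff (by positivity)).1 h3

end Pool.Agent.Lib.Pf720zr
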