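import Pool.Agent.Lib.Pf720zr.UDefs

/-!
# Transference from finite quotients to one orbit

`exists_packing`: take `Z` maximal (`Finset.exists_maximal` on the finset of all finsets with the
property, or strong induction on the cardinality of the complement; `∅` has the property). For `y : Y`
there are `z ∈ Z`, `a, b ∈ K` with `a • y = b • z` (if `y ∈ Z` take `z = y`, `a = b`; otherwise `insert y Z` does not
have the property; note that `a • y = b • y` is not excluded by the property), so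
`y = (a⁻¹ * b) • z`, and `Y` is the union of the sets `E • z`.

`orbit_bound`: let `Y = G ⧸ H j`, `Z` from `exists_packing`. `(a, z) ↦ a • z` is injective on `K j × Z`: if
`a • z = b • z'` then `z = z'`, and `a • z = b • z` with `z = gH`, `H` normal gives `a⁻¹ * b ∈ H j`, so
`a = b` (`TileSeq.inj`). Let `φ y = f a` if `y = a • z` with `a ∈ K j`, `z ∈ Z`, and `φ y = 0` otherwise (e.g.
`φ y = ∑ p ∈ (K j ×ˢ Z).filter (fun p => p.1 • p.2 = y), f p.1`, a sum with at most one term). Then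
`∑ y, φ y = Z.card * ∑ k ∈ K j, f k ≤ δ * (Z.card * (K j).card) ≤ δ * Nat.card Y`. If `k` is in the filtered
set and `z ∈ Z` then `k • z ∈ Bad`: with the `M` of `k`, for `m ∈ box M` (so `m l < M l ≤ R`)
`w m • k • z = (w m * k) • z` and `w m * k ∈ K j`, so `φ (w m • k • z) = f (w m * k)` (`avg_congr`). So
`(filtered set).card * Z.card ≤ Bad.ncard ≤ ε * Nat.card Y ≤ ε * (Z.card * E.card)
≤ ε * Z.card * C * (K j).card`, and `Z.card > 0` because `Nat.card Y > 0`.
-/

set_option autoImplicit false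
set_option linter.unusedSectionVars false

open Finset Filter Topology

namespace Pool.Agent.Lib.Pf720zr

open Pool.Agent.Lib.Pf720ae

theorem exists_packing {G Y : Type} [Group G] [MulAction G Y] [Finite Y] (K E : Finset G)
    (hK : K.Nonempty) (hE : ∀ a ∈ K, ∀ b ∈ K, a⁻¹ * b ∈ E) :
    ∃ Z : Finset Y, (∀ z ∈ Z, ∀ z' ∈ Z, ∀ a ∈ K, ∀ b ∈ K, a • z = b • z' → z = z') ∧
      Nat.card Y ≤ Z.card * E.card := by
  classical
  have := Fintype.ofFinite Y
  set p : Finset Y → Prop := fun Z =>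
    ∀ z ∈ Z, ∀ z' ∈ Z, ∀ a ∈ K, ∀ b ∈ K, a • z = b • z' → z = z' with hp
  obtain ⟨Z, hZm, hZmax⟩ := Finset.exists_max_image (Finset.univ.filter p) Finset.card
    ⟨∅, by simp [hp]⟩
  have hZ : p Z := (Finset.mem_filter.1 hZm).2
  refine ⟨Z, hZ, ?_⟩
  have hcov : ∀ y : Y, ∃ z ∈ Z, ∃ a ∈ K, ∃ b ∈ K, a • y = b • z := by
    intro y
    by_contra hcon
    push Not at hcon
    have hy : y ∉ Z := by
      intro hy
      obtain ⟨a, ha⟩ := hK
      exact hcon y hy a ha a ha rfl
    have h1 : p (insert y Z) := by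
      intro z hz z' hz' a ha b hb hab
      rcases Finset.mem_insert.1 hz with h3 | h3
      · rcases Finset.mem_insert.1 hz' with h4 | h4
        · rw [h3, h4]
        · rw [h3] at hab
          exact absurd hab (hcon z' h4 a ha b hb)
      · rcases Finset.mem_insert.1 hz' with h4 | h4
        · rw [h4] at hab
          exact absurd hab.symm (hcon z h3 b hb a ha)
        · exact hZ z h3 z' h4 a ha b hb hab
    have h2 := hZmax _ (Finset.mem_filter.2 ⟨Finset.mem_univ _, h1⟩)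
    rw [Finset.card_insert_of_notMem hy] at h2
    omega
  have hsub : (Finset.univ : Finset Y) ⊆ (Z ×ˢ E).image fun q => q.2 • q.1 := by
    intro y _
    obtain ⟨z, hz, a, ha, b, hb, hab⟩ := hcov y
    refine Finset.mem_image.2 ⟨(z, a⁻¹ * b), Finset.mem_product.2 ⟨hz, hE a ha b hb⟩, ?_⟩
    show (a⁻¹ * b) • z = y
    rw [mul_smul, ← hab, inv_smul_smul]
  have h3 := (Finset.card_le_card hsub).trans Finset.card_image_le
  rw [Finset.card_univ, Finset.card_product] at h3
  rwa [Nat.card_eq_fintype_card]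

open Classical in
theorem orbit_bound {κ G : Type} [Fintype κ] [DecidableEq κ] [Group G] {K : ℕ → Finset G}
    {H : ℕ → Subgroup G} {C : ℕ} (hT : TileSeq K H C) (w : (κ → ℕ) → G) {ε δ : ℝ} (hε : 0 ≤ ε)
    (hδ : 0 ≤ δ) {N : ℕ} (j : ℕ)
    (hfin : ∀ φ : G ⧸ H j → ℝ, (∀ y, 0 ≤ φ y) → (∀ y, φ y ≤ 1) →
      ∑ᶠ y, φ y ≤ δ * Nat.card (G ⧸ H j) →
      ((Bad (fun m y => w m • y) N ε φ).ncard : ℝ) ≤ ε * Nat.card (G ⧸ H j))
    (D : Finset G) (R : ℕ)
    (hD : ∀ k ∈ K j, k ∉ D → ∀ m : κ → ℕ, (∀ l, m l ≤ R) → w m * k ∈ K j)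
    (f : G → ℝ) (hf0 : ∀ k, 0 ≤ f k) (hf1 : ∀ k, f k ≤ 1)
    (hsum : ∑ k ∈ K j, f k ≤ δ * (K j).card) :
    (((K j).filter fun k => k ∉ D ∧ ∃ M : κ → ℕ, (∀ l, N ≤ M l ∧ M l ≤ R) ∧
      ε < avg M fun m => f (w m * k)).card : ℝ) ≤ ε * C * (K j).card := by
  have hfi := hT.findex j
  have hno := hT.normal j
  have hfint : Fintype (G ⧸ H j) := Fintype.ofFinite _
  obtain ⟨E, hEc, hE⟩ := hT.doub j
  obtain ⟨Z, hZ, hcard⟩ := exists_packing (Y := G ⧸ H j) (K j) E (hT.ne j) hE
  -- injectivity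
  have hinj : Set.InjOn (fun q : G × (G ⧸ H j) => q.1 • q.2) ((K j ×ˢ Z : Finset _) : Set _) := by
    rintro ⟨a, z⟩ h1 ⟨b, z'⟩ h2 h3
    rw [Finset.mem_coe, Finset.mem_product] at h1 h2
    simp only at h1 h2 h3
    have h4 := hZ z h1.2 z' h2.2 a h1.1 b h2.1 h3
    subst h4
    have h5 : a = b := by
      refine hT.inj j a h1.1 b h2.1 ?_
      obtain ⟨g, rfl⟩ := QuotientGroup.mk_surjective z
      have h6 : ((a * g : G) : G ⧸ H j) = ((b * g : G) : G ⧸ H j) := h3
      rw [QuotientGroup.eq] at h6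
      have h7 := hno.conj_mem _ h6 g
      have e : g * ((a * g)⁻¹ * (b * g)) * g⁻¹ = a⁻¹ * b := by group
      rwa [e] at h7
    rw [h5]
  -- the function
  set φ : G ⧸ H j → ℝ := fun y => ∑ q ∈ (K j ×ˢ Z).filter (fun q => q.1 • q.2 = y), f q.1
    with hφ
  have hφv : ∀ a ∈ K j, ∀ z ∈ Z, φ (a • z) = f a := by
    intro a ha z hz
    simp only [hφ]
    have h1 : (K j ×ˢ Z).filter (fun q => q.1 • q.2 = a • z) = {(a, z)} := by
      ext q
      simp only [Finset.mem_filter, Finset.mem_singleton]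
      constructor
      · rintro ⟨hq, hqa⟩
        exact hinj (Finset.mem_coe.2 hq)
          (Finset.mem_coe.2 (Finset.mem_product.2 ⟨ha, hz⟩)) hqa
      · rintro rfl
        exact ⟨Finset.mem_product.2 ⟨ha, hz⟩, rfl⟩
    rw [h1, Finset.sum_singleton]
  have hφ0 : ∀ y, 0 ≤ φ y := fun y => Finset.sum_nonneg fun q _ => hf0 _
  have hφ1 : ∀ y, φ y ≤ 1 := by
    intro y
    by_cases h : ∃ q ∈ K j ×ˢ Z, q.1 • q.2 = y
    · obtain ⟨q, hq, rfl⟩ := h
      rw [Finset.mem_product] at hq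
      rw [hφv q.1 hq.1 q.2 hq.2]
      exact hf1 _
    · push Not at h
      simp only [hφ]
      rw [Finset.filter_eq_empty_iff.2 fun q hq => h q hq, Finset.sum_empty]
      exact zero_le_one
  have hZK : (Z.card * (K j).card : ℝ) ≤ Nat.card (G ⧸ H j) := by
    have h1 := Finset.card_image_of_injOn hinj
    have h2 := Finset.card_le_univ ((K j ×ˢ Z).image fun q : G × (G ⧸ H j) => q.1 • q.2)
    rw [h1, Finset.card_product, ← Nat.card_eq_fintype_card] at h2
    rw [mul_comm]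
    exact_mod_cast h2
  have hφs : ∑ᶠ y, φ y ≤ δ * Nat.card (G ⧸ H j) := by
    rw [finsum_eq_sum_of_fintype]
    have h1 : ∑ y, φ y = ∑ q ∈ K j ×ˢ Z, f q.1 := by
      simp only [hφ]
      exact Finset.sum_fiberwise (K j ×ˢ Z) (fun q : G × (G ⧸ H j) => q.1 • q.2) fun q => f q.1
    rw [h1, Finset.sum_product]
    simp only [Finset.sum_const, nsmul_eq_mul]
    rw [← Finset.mul_sum]
    calc (Z.card : ℝ) * ∑ k ∈ K j, f k ≤ Z.card * (δ * (K j).card) :=
          mul_le_mul_of_nonneg_left hsum (Nat.cast_nonneg _)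
      _ = δ * (Z.card * (K j).card) := by ring
      _ ≤ δ * Nat.card (G ⧸ H j) := mul_le_mul_of_nonneg_left hZK hδ
  have hbad := hfin φ hφ0 hφ1 hφs
  -- the bad points
  set F := (K j).filter fun k => k ∉ D ∧ ∃ M : κ → ℕ, (∀ l, N ≤ M l ∧ M l ≤ R) ∧
      ε < avg M fun m => f (w m * k) with hF
  have hsub : ((F ×ˢ Z).image fun q : G × (G ⧸ H j) => q.1 • q.2 : Set (G ⧸ H j)) ⊆
      Bad (fun m y => w m • y) N ε φ := by
    intro y hy
    obtain ⟨q, hq, rfl⟩ := Finset.mem_image.1 (Finset.mem_coe.1 hy)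
    rw [Finset.mem_product, hF, Finset.mem_filter] at hq
    obtain ⟨⟨hk, hkD, M, hM, hlt⟩, hz⟩ := hq
    refine ⟨M, fun l => (hM l).1, ?_⟩
    refine lt_of_lt_of_eq hlt (avg_congr fun m hm => ?_)
    rw [mem_box] at hm
    show f (w m * q.1) = φ (w m • q.1 • q.2)
    rw [← mul_smul, hφv _ (hD q.1 hk hkD m fun l => (hm l).le.trans (hM l).2) _ hz]
  have hle : (F.card * Z.card : ℝ) ≤ ε * Nat.card (G ⧸ H j) := by
    refine le_trans ?_ hbad
    have h1 : ((F ×ˢ Z).image fun q : G × (G ⧸ H j) => q.1 • q.2).card = F.card * Z.card := by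
      rw [Finset.card_image_of_injOn, Finset.card_product]
      refine hinj.mono ?_
      exact Finset.coe_subset.2 (Finset.product_subset_product_left (Finset.filter_subset _ _))
    have h2 := Set.ncard_le_ncard hsub (Set.toFinite _)
    rw [Set.ncard_coe_finset, h1] at h2
    exact_mod_cast h2
  have hZpos : 0 < Z.card := by
    rcases Nat.eq_zero_or_pos Z.card with h0 | h0
    · rw [h0, zero_mul] at hcard
      have h1 : 0 < Nat.card (G ⧸ H j) := Nat.card_pos
      omega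
    · exact h0
  have hZpos' : (0 : ℝ) < Z.card := by exact_mod_cast hZpos
  have hcard' : (Nat.card (G ⧸ H j) : ℝ) ≤ Z.card * (C * (K j).card) := by
    have h1 : Nat.card (G ⧸ H j) ≤ Z.card * (C * (K j).card) :=
      hcard.trans (Nat.mul_le_mul_left _ hEc)
    exact_mod_cast h1
  have h5 : (F.card : ℝ) * Z.card ≤ ε * C * (K j).card * Z.card := by
    calc (F.card : ℝ) * Z.card ≤ ε * Nat.card (G ⧸ H j) := hle
      _ ≤ ε * (Z.card * (C * (K j).card)) := mul_le_mul_of_nonneg_left hcard' hε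
      _ = ε * C * (K j).card * Z.card := by ring
  exact le_of_mul_le_mul_right h5 hZpos'

end Pool.Agent.Lib.Pf720zr
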